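import Pool.Agent.QPR.Tut

/-!
# The sign of the Tutte polynomial: the multivariate polynomial of a minor

`SZ r q y C R` is the multivariate Tutte polynomial of the minor `(M | (C ∪ R)) / C` with the
parameter `q` and the weights `y e - 1`, multiplied by `(-1) ^ rank`.
-/

set_option autoImplicit false

namespace Pool.Agent.TSG

open Finset Pool.Agent.QPR

variable {α : Type} [DecidableEq α] {r : Finset α → ℕ}

/-- the signed multivariate Tutte polynomial of a minor -/
noncomputable def SZ (r : Finset α → ℕ) (q : ℝ) (y : α → ℝ) (C R : Finset α) : ℝ :=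
  (-1) ^ (r (C ∪ R) - r C) *
    ∑ A ∈ R.powerset, (q⁻¹) ^ (r (C ∪ A) - r C) * ∏ e ∈ A, (y e - 1)

theorem SZ_empty (q : ℝ) (y : α → ℝ) (C : Finset α) : SZ r q y C ∅ = 1 := by
  unfold SZ
  simp

/-- the sum over the subsets of `insert e R` -/
theorem sum_split (F : Finset α → ℝ) (y : α → ℝ) {R : Finset α} {e : α} (he : e ∉ R) :
    ∑ A ∈ (insert e R).powerset, F A * ∏ g ∈ A, (y g - 1) =
      ∑ A ∈ R.powerset, (F A + (y e - 1) * F (insert e A)) * ∏ g ∈ A, (y g - 1) := by
  rw [Finset.sum_powerset_insert he, ← Finset.sum_add_distrib]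
  apply Finset.sum_congr rfl
  intro A hA
  have : e ∉ A := fun h => he (Finset.mem_powerset.1 hA h)
  rw [Finset.prod_insert this]
  ring

/-- the sum over the subsets of `insert e (insert f R)` -/
theorem sum_split2 (F : Finset α → ℝ) (y : α → ℝ) {R : Finset α} {e f : α} (he : e ∉ R)
    (hf : f ∉ R) (hef : e ≠ f) :
    ∑ A ∈ (insert e (insert f R)).powerset, F A * ∏ g ∈ A, (y g - 1) =
      ∑ A ∈ R.powerset, (F A + (y e - 1) * F (insert e A) + (y f - 1) * F (insert f A) +
        (y e - 1) * (y f - 1) * F (insert e (insert f A))) * ∏ g ∈ A, (y g - 1) := by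
  have he' : e ∉ insert f R := by
    rw [Finset.mem_insert, not_or]
    exact ⟨hef, he⟩
  rw [sum_split F y he', sum_split (fun A => F A + (y e - 1) * F (insert e A)) y hf]
  apply Finset.sum_congr rfl
  intro A _
  ring

/-- deletion and contraction -/
theorem SZ_generic (h : IsRank r) {q : ℝ} (y : α → ℝ) {C R : Finset α} {e : α} (he : e ∉ R)
    (hl : r (insert e C) = r C + 1) (hc : r (C ∪ insert e R) = r (C ∪ R)) :
    SZ r q y C (insert e R) = SZ r q y C R + (1 - y e) / q * SZ r q y (insert e C) R := by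
  have hu : insert e C ∪ R = C ∪ insert e R := by
    rw [Finset.insert_union, Finset.union_insert]
  have hm : r (insert e C) ≤ r (insert e C ∪ R) := h.mono_subset Finset.subset_union_left
  unfold SZ
  rw [sum_split _ y he, hu, hc]
  rw [hu, hc] at hm
  obtain ⟨n, hn⟩ : ∃ n, r (C ∪ R) - r C = n + 1 := ⟨r (C ∪ R) - r C - 1, by omega⟩
  have hn2 : r (C ∪ R) - r (insert e C) = n := by omega
  rw [hn, hn2, Finset.mul_sum, Finset.mul_sum, Finset.mul_sum, Finset.mul_sum,
    ← Finset.sum_add_distrib]
  apply Finset.sum_congr rfl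
  intro A _
  have h1 : r (insert e C) ≤ r (insert e C ∪ A) := h.mono_subset Finset.subset_union_left
  have h2 : C ∪ insert e A = insert e C ∪ A := by
    rw [Finset.insert_union, Finset.union_insert]
  rw [h2, show r (insert e C ∪ A) - r C = (r (insert e C ∪ A) - r (insert e C)) + 1 by omega,
    pow_succ, pow_succ]
  ring

/-- a pair of parallel elements -/
theorem SZ_par (h : IsRank r) {q : ℝ} (y y' : α → ℝ) {C R : Finset α} {e f : α} (he : e ∉ R)
    (hf : f ∉ R) (hef : e ≠ f) (h1 : r (insert e C) = r C + 1) (h2 : r (insert f C) = r C + 1)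
    (h3 : r (insert e (insert f C)) = r C + 1) (hR : ∀ g ∈ R, y' g = y g)
    (hy : y' e = y e * y f) :
    SZ r q y C (insert e (insert f R)) = SZ r q y' C (insert e R) := by
  -- `f` is in the closure of `e` and conversely
  have hfe : ∀ A, C ⊆ A → r (insert f (insert e A)) = r (insert e A) := by
    intro A hA
    apply h.closure (A := insert e C) _ (Finset.insert_subset_insert _ hA)
    rw [Finset.insert_comm, h3, h1]
  have hef' : ∀ A, C ⊆ A → r (insert e (insert f A)) = r (insert f A) := by
    intro A hA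
    apply h.closure (A := insert f C) _ (Finset.insert_subset_insert _ hA)
    rw [h3, h2]
  have hu : r (C ∪ insert e (insert f R)) = r (C ∪ insert e R) := by
    rw [Finset.union_insert, Finset.union_insert, Finset.union_insert, Finset.insert_comm,
      hfe _ Finset.subset_union_left]
  unfold SZ
  rw [sum_split2 _ y he hf hef, sum_split _ y' he, hu]
  congr 1
  apply Finset.sum_congr rfl
  intro A hA
  have hAR := Finset.mem_powerset.1 hA
  have e1 : r (C ∪ insert f A) = r (C ∪ insert e A) := by
    rw [Finset.union_insert, Finset.union_insert]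
    have a1 := hfe (C ∪ A) Finset.subset_union_left
    have a2 := hef' (C ∪ A) Finset.subset_union_left
    rw [Finset.insert_comm] at a1
    rw [← a2, a1]
  have e2 : r (C ∪ insert e (insert f A)) = r (C ∪ insert e A) := by
    rw [Finset.union_insert, Finset.union_insert, Finset.union_insert, Finset.insert_comm,
      hfe _ Finset.subset_union_left]
  have hp : ∏ g ∈ A, (y' g - 1) = ∏ g ∈ A, (y g - 1) :=
    Finset.prod_congr rfl fun g hg => by rw [hR g (hAR hg)]
  rw [e1, e2, hy, hp]
  ring

/-- a pair of elements in series -/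
theorem SZ_ser (h : IsRank r) {q : ℝ} (hq : 0 < q) (y y' : α → ℝ) {C R : Finset α} {e f : α}
    (he : e ∉ R) (hf : f ∉ R) (hef : e ≠ f)
    (h1 : r (insert e (C ∪ R)) = r (C ∪ R) + 1) (h2 : r (insert f (C ∪ R)) = r (C ∪ R) + 1)
    (h3 : r (insert e (insert f (C ∪ R))) = r (C ∪ R) + 1) (hR : ∀ g ∈ R, y' g = y g)
    (hy : (q + (y e - 1) + (y f - 1)) * (y' e - 1) = (y e - 1) * (y f - 1)) :
    SZ r q y C (insert e (insert f R)) =
      -((q + (y e - 1) + (y f - 1)) / q) * SZ r q y' (insert f C) (insert e R) := by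
  have he1 : ∀ A, A ⊆ R → r (insert e (C ∪ A)) = r (C ∪ A) + 1 := fun A hA =>
    h.coclosure (by omega) (Finset.union_subset_union_right hA)
  have hf1 : ∀ A, A ⊆ R → r (insert f (C ∪ A)) = r (C ∪ A) + 1 := fun A hA =>
    h.coclosure (by omega) (Finset.union_subset_union_right hA)
  have hf2 : r (insert f C) = r C + 1 := by
    have := hf1 ∅ (Finset.empty_subset _)
    rwa [Finset.union_empty] at this
  have hq' : q ≠ 0 := hq.ne'
  have hu1 : r (C ∪ insert e (insert f R)) = r (C ∪ R) + 1 := by
    rw [Finset.union_insert, Finset.union_insert, h3]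
  have hu2 : r (insert f C ∪ insert e R) = r (C ∪ R) + 1 := by
    rw [Finset.insert_union, Finset.union_insert, Finset.insert_comm, h3]
  have hm : r C ≤ r (C ∪ R) := h.mono_subset Finset.subset_union_left
  unfold SZ
  rw [sum_split2 _ y he hf hef, sum_split _ y' he, hu1, hu2, hf2,
    show r (C ∪ R) + 1 - r C = (r (C ∪ R) - r C) + 1 by omega,
    show r (C ∪ R) + 1 - (r C + 1) = r (C ∪ R) - r C by omega, pow_succ,
    Finset.mul_sum, Finset.mul_sum, Finset.mul_sum]
  apply Finset.sum_congr rfl
  intro A hA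
  have hAR := Finset.mem_powerset.1 hA
  have e1 : r (C ∪ insert e A) = r (C ∪ A) + 1 := by rw [Finset.union_insert, he1 A hAR]
  have e2 : r (C ∪ insert f A) = r (C ∪ A) + 1 := by rw [Finset.union_insert, hf1 A hAR]
  have e3 : r (insert f C ∪ A) = r (C ∪ A) + 1 := by rw [Finset.insert_union, hf1 A hAR]
  have e4 : insert f C ∪ insert e A = C ∪ insert e (insert f A) := by
    rw [Finset.insert_union, Finset.union_insert, Finset.union_insert, Finset.union_insert,
      Finset.insert_comm]
  have hmA : r C ≤ r (C ∪ A) := h.mono_subset Finset.subset_union_left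
  have hp : ∏ g ∈ A, (y' g - 1) = ∏ g ∈ A, (y g - 1) :=
    Finset.prod_congr rfl fun g hg => by rw [hR g (hAR hg)]
  have hmB : r (C ∪ A) + 1 ≤ r (C ∪ insert e (insert f A)) := by
    rw [← e2]
    exact h.mono_subset (Finset.union_subset_union_right (Finset.subset_insert _ _))
  rw [e1, e2, e3, e4, show r (C ∪ A) + 1 - r C = (r (C ∪ A) - r C) + 1 by omega,
    show r (C ∪ A) + 1 - (r C + 1) = r (C ∪ A) - r C by omega,
    show r (C ∪ insert e (insert f A)) - r C =
      (r (C ∪ insert e (insert f A)) - (r C + 1)) + 1 by omega, hp]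
  rw [pow_succ, pow_succ]
  generalize (q⁻¹) ^ (r (C ∪ A) - r C) = a
  generalize (q⁻¹) ^ (r (C ∪ insert e (insert f A)) - (r C + 1)) = b
  generalize ∏ g ∈ A, (y g - 1) = p
  generalize (-1 : ℝ) ^ (r (C ∪ R) - r C) = s
  have key : (a + (y e - 1) * (a * q⁻¹) + (y f - 1) * (a * q⁻¹) +
      (y e - 1) * (y f - 1) * (b * q⁻¹)) =
      (q + (y e - 1) + (y f - 1)) / q * (a + (y' e - 1) * b) := by
    rw [← hy]
    field_simp
  rw [key]
  ring

/-- a pair of elements which is a parallel and a series pair -/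
theorem SZ_dig (h : IsRank r) {q : ℝ} (hq : 0 < q) (y : α → ℝ) {C R : Finset α} {e f : α}
    (he : e ∉ R) (hf : f ∉ R) (hef : e ≠ f)
    (h1 : r (insert e (C ∪ R)) = r (C ∪ R) + 1) (h2 : r (insert f (C ∪ R)) = r (C ∪ R) + 1)
    (h3 : r (insert e (insert f C)) = r C + 1) :
    SZ r q y C (insert e (insert f R)) = (1 - q - y e * y f) / q * SZ r q y C R := by
  have he1 : ∀ A, A ⊆ R → r (insert e (C ∪ A)) = r (C ∪ A) + 1 := fun A hA =>
    h.coclosure (by omega) (Finset.union_subset_union_right hA)
  have hf1 : ∀ A, A ⊆ R → r (insert f (C ∪ A)) = r (C ∪ A) + 1 := fun A hA =>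
    h.coclosure (by omega) (Finset.union_subset_union_right hA)
  have hf2 : r (insert f C) = r C + 1 := by
    have := hf1 ∅ (Finset.empty_subset _)
    rwa [Finset.union_empty] at this
  have hef' : ∀ A, A ⊆ R → r (insert e (insert f (C ∪ A))) = r (C ∪ A) + 1 := by
    intro A hA
    rw [h.closure (A := insert f C) _ (Finset.insert_subset_insert _ Finset.subset_union_left),
      hf1 A hA]
    rw [h3, hf2]
  have hq' : q ≠ 0 := hq.ne'
  have hu1 : r (C ∪ insert e (insert f R)) = r (C ∪ R) + 1 := by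
    rw [Finset.union_insert, Finset.union_insert, hef' R (Finset.Subset.refl _)]
  have hm : r C ≤ r (C ∪ R) := h.mono_subset Finset.subset_union_left
  unfold SZ
  rw [sum_split2 _ y he hf hef, hu1, show r (C ∪ R) + 1 - r C = (r (C ∪ R) - r C) + 1 by omega,
    pow_succ, Finset.mul_sum, Finset.mul_sum, Finset.mul_sum]
  apply Finset.sum_congr rfl
  intro A hA
  have hAR := Finset.mem_powerset.1 hA
  have e1 : r (C ∪ insert e A) = r (C ∪ A) + 1 := by rw [Finset.union_insert, he1 A hAR]
  have e2 : r (C ∪ insert f A) = r (C ∪ A) + 1 := by rw [Finset.union_insert, hf1 A hAR]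
  have e3 : r (C ∪ insert e (insert f A)) = r (C ∪ A) + 1 := by
    rw [Finset.union_insert, Finset.union_insert, hef' A hAR]
  have hmA : r C ≤ r (C ∪ A) := h.mono_subset Finset.subset_union_left
  rw [e1, e2, e3, show r (C ∪ A) + 1 - r C = (r (C ∪ A) - r C) + 1 by omega, pow_succ]
  generalize (q⁻¹) ^ (r (C ∪ A) - r C) = a
  generalize ∏ g ∈ A, (y g - 1) = p
  generalize (-1 : ℝ) ^ (r (C ∪ R) - r C) = s
  field_simp
  ring

end Pool.Agent.TSG
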