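import Pool.Agent.QPR.Tut
import Pool.Agent.Lib_helper88.TutteHard.Defs

/-!
# The sign of the Tutte polynomial: definitions
-/

set_option autoImplicit false

namespace Pool.Agent.TSG

open Finset

variable {α : Type} [Fintype α] [DecidableEq α]

/-- The Tutte polynomial of the matroid with the rank function `r`. -/
noncomputable def tutteM (r : Finset α → ℕ) (x y : ℝ) : ℝ :=
  ∑ A : Finset α, (x - 1) ^ (r Finset.univ - r A) * (y - 1) ^ (A.card - r A)

/-- The loops. -/
def loops (r : Finset α → ℕ) : Finset α := Finset.univ.filter fun e => r {e} = 0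

/-- The coloops (for a graph: the bridges). -/
def coloops (r : Finset α → ℕ) : Finset α :=
  Finset.univ.filter fun e => r {e}ᶜ + 1 = r Finset.univ

/-- The connected components `U_{1,2}` (for a graph: the blocks which consist of two parallel
edges): the pairs `S` of elements, not loops and not coloops, with `r S = 1` and
`r (E \ S) = r E - 1`. -/
def digons (r : Finset α → ℕ) : Finset (Finset α) :=
  (Finset.powersetCard 2 Finset.univ).filter fun S =>
    (∀ e ∈ S, e ∉ loops r ∧ e ∉ coloops r) ∧ r S = 1 ∧ r Sᶜ + 1 = r Finset.univ

/-- `-1 < y < 0 < x`, `x + y ≤ 0`, and the Tutte polynomials of four parallel edges and of the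
triangle are positive at `(x, y)`. -/
def Region (x y : ℝ) : Prop :=
  -1 < y ∧ y < 0 ∧ 0 < x ∧ x + y ≤ 0 ∧ 0 < x + y + y ^ 2 + y ^ 3 ∧ 0 < x + x ^ 2 + y

/-- The part of the open square above the line `x + y = 0`, the region below this line, and its
mirror image. -/
def GoodPt (x y : ℝ) : Prop := 0 < x + y ∨ Region x y ∨ Region y x

open Pool.Agent.TutteHard in
/-- The graph has no loops, no bridges and no blocks which consist of two parallel edges. -/
def Plain (G : MGraph) : Prop :=
  loops (rank G) = ∅ ∧ coloops (rank G) = ∅ ∧ digons (rank G) = ∅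

end Pool.Agent.TSG
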