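import Pool.Agent.TSG.Fac

/-!
# The sign of the Tutte polynomial: the dual matroid
-/

set_option autoImplicit false

namespace Pool.Agent.TSG

open Finset Pool.Agent.QPR

variable {α : Type} [DecidableEq α] {r : Finset α → ℕ}

/-- the rank function of the dual of the restriction to `E` -/
def dual (r : Finset α → ℕ) (E A : Finset α) : ℕ := A.card + r (E \ A) - r E

theorem dual_le (h : IsRank r) (E A : Finset α) : r E ≤ A.card + r (E \ A) := by
  have h1 : E ⊆ (E \ A) ∪ A := by
    intro z hz
    by_cases hA : z ∈ A <;> simp [hz, hA]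
  exact (h.mono_subset h1).trans (h.card_le _ _)

theorem dual_isRank (h : IsRank r) (E : Finset α) : IsRank (dual r E) := by
  have hd : ∀ (A : Finset α) (e : α), E \ A ⊆ insert e (E \ insert e A) := by
    intro A e z hz
    simp only [Finset.mem_sdiff, Finset.mem_insert, not_or] at hz ⊢
    tauto
  have hs : ∀ (A : Finset α) (e : α), E \ insert e A ⊆ E \ A := fun A e =>
    Finset.sdiff_subset_sdiff (Finset.Subset.refl _) (Finset.subset_insert _ _)
  refine ⟨?_, ?_, ?_, ?_⟩
  · unfold dual
    simp
  · intro A e
    by_cases he : e ∈ A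
    · rw [Finset.insert_eq_of_mem he]
    · unfold dual
      rw [Finset.card_insert_of_notMem he]
      have h1 := h.mono_subset (hd A e)
      have h2 := h.le_succ (E \ insert e A) e
      omega
  · intro A e
    unfold dual
    have h1 := h.mono_subset (hs A e)
    have h2 := Finset.card_insert_le e A
    have h3 := dual_le h E A
    omega
  · intro A e f he hf
    by_cases heA : e ∈ A
    · rw [Finset.insert_eq_of_mem (Finset.mem_insert_of_mem heA), hf]
    by_cases hfA : f ∈ A
    · rw [Finset.insert_eq_of_mem hfA, he]
    by_cases hef : e = f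
    · subst hef
      rw [Finset.insert_idem, he]
    have hefA : e ∉ insert f A := by
      rw [Finset.mem_insert, not_or]
      exact ⟨hef, heA⟩
    unfold dual at *
    rw [Finset.card_insert_of_notMem heA] at he
    rw [Finset.card_insert_of_notMem hfA] at hf
    rw [Finset.card_insert_of_notMem hefA, Finset.card_insert_of_notMem hfA]
    have a1 := dual_le h E A
    have a2 := dual_le h E (insert e A)
    have a3 := dual_le h E (insert f A)
    have a4 := dual_le h E (insert e (insert f A))
    rw [Finset.card_insert_of_notMem heA] at a2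
    rw [Finset.card_insert_of_notMem hfA] at a3
    rw [Finset.card_insert_of_notMem hefA, Finset.card_insert_of_notMem hfA] at a4
    -- `e` and `f` are coloops of `E \ A`
    have b1 : r (E \ insert e A) + 1 = r (E \ A) := by omega
    have b2 : r (E \ insert f A) + 1 = r (E \ A) := by omega
    have b3 : r (E \ insert e (insert f A)) + 1 = r (E \ insert f A) := by
      have c1 := h.mono_subset (hd A e)
      have c2 : r (E \ insert e A) < r (insert e (E \ insert e A)) := by omega
      have c3 : E \ insert e (insert f A) ⊆ E \ insert e A := by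
        rw [Finset.insert_comm]
        exact hs _ _
      have c4 := h.coclosure c2 c3
      have c5 : insert e (E \ insert e (insert f A)) ⊆ E \ insert f A := by
        intro z hz
        rw [Finset.mem_insert] at hz
        rcases hz with rfl | hz
        · rw [Finset.mem_sdiff]
          refine ⟨?_, hefA⟩
          by_contra hE
          have c6 : E \ insert z A = E \ A := by
            ext w
            simp only [Finset.mem_sdiff, Finset.mem_insert, not_or]
            constructor
            · rintro ⟨d1, d2, d3⟩
              exact ⟨d1, d3⟩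
            · rintro ⟨d1, d3⟩
              exact ⟨d1, fun d => hE (d ▸ d1), d3⟩
          rw [c6] at b1
          omega
        · exact hs _ _ hz
      have c7 := h.mono_subset c5
      have c8 := h.mono_subset (hd (insert f A) e)
      have c9 := h.le_succ (E \ insert e (insert f A)) e
      omega
    omega

theorem dual_E (h : IsRank r) (E : Finset α) : dual r E E = E.card - r E := by
  unfold dual
  rw [Finset.sdiff_self, h.empty, Nat.add_zero]

/-- the Tutte polynomial of the dual matroid -/
theorem TT_dual (h : IsRank r) (x y : ℝ) (E : Finset α) :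
    TT (dual r E) x y ∅ E = TT r y x ∅ E := by
  unfold TT
  refine Finset.sum_bij' (fun A _ => E \ A) (fun A _ => E \ A) ?_ ?_ ?_ ?_ ?_
  · intro A _
    exact Finset.mem_powerset.2 Finset.sdiff_subset
  · intro A _
    exact Finset.mem_powerset.2 Finset.sdiff_subset
  · intro A hA
    exact Finset.sdiff_sdiff_eq_self (Finset.mem_powerset.1 hA)
  · intro A hA
    exact Finset.sdiff_sdiff_eq_self (Finset.mem_powerset.1 hA)
  · intro A hA
    have hA' := Finset.mem_powerset.1 hA
    have h1 := dual_le h E A
    have h2 := Finset.card_sdiff_add_card_eq_card hA'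
    have h3 := h.card_le ∅ (E \ A)
    have h4 : r (E \ A) ≤ r E := h.mono_subset Finset.sdiff_subset
    have h5 := h.card_le ∅ E
    simp only [Finset.empty_union]
    rw [dual_E h, (dual_isRank h E).empty, h.empty]
    rw [Finset.empty_union, h.empty] at h3 h5
    unfold dual
    rw [mul_comm]
    congr 2 <;> omega

theorem lo_dual (h : IsRank r) (E : Finset α) : lo (dual r E) ∅ E = co r ∅ E := by
  unfold lo co
  apply Finset.filter_congr
  intro e he
  have h1 := dual_le h E {e}
  have h2 : E \ {e} = E.erase e := by rw [Finset.sdiff_singleton_eq_erase]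
  have h3 : r (E.erase e) ≤ r E := h.mono_subset (Finset.erase_subset _ _)
  rw [(dual_isRank h E).empty, Finset.empty_union, Finset.empty_union, insert_empty_eq]
  unfold dual
  rw [h2] at h1 ⊢
  rw [Finset.card_singleton] at h1 ⊢
  omega

theorem sdiff_erase_self {E : Finset α} {e : α} (he : e ∈ E) : E \ E.erase e = {e} := by
  rw [Finset.sdiff_erase he]
  simp

theorem co_dual (h : IsRank r) (E : Finset α) : co (dual r E) ∅ E = lo r ∅ E := by
  unfold lo co
  apply Finset.filter_congr
  intro e he
  have h1 := dual_le h E (E.erase e)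
  have h3 := h.card_le ∅ E
  have h4 := Finset.card_erase_add_one he
  rw [Finset.empty_union, Finset.empty_union, insert_empty_eq, h.empty, dual_E h]
  unfold dual
  rw [sdiff_erase_self he] at h1 ⊢
  rw [Finset.empty_union, h.empty] at h3
  omega

theorem isDig_dual (h : IsRank r) {E S : Finset α} (hS : S ⊆ E) (hc : S.card = 2) :
    IsDig (dual r E) ∅ E S ↔ IsDig r ∅ E S := by
  unfold IsDig
  have hS2 := Finset.card_sdiff_add_card_eq_card hS
  have h1 := dual_le h E S
  have h2 := dual_le h E (E \ S)
  have h3 := h.card_le ∅ E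
  have h5 : r (E \ S) ≤ r E := h.mono_subset Finset.sdiff_subset
  rw [Finset.empty_union, h.empty] at h3
  rw [Finset.sdiff_sdiff_eq_self hS] at h2
  rw [(dual_isRank h E).empty, h.empty, Finset.empty_union, Finset.empty_union,
    Finset.empty_union, dual_E h]
  have key : ∀ e ∈ S, ((dual r E (insert e ∅) = 0 + 1 ∧
      dual r E (∅ ∪ E.erase e) = E.card - r E) ↔
      (r (insert e ∅) = 0 + 1 ∧ r (∅ ∪ E.erase e) = r E)) := by
    intro e he
    have heE := hS he
    have k1 := dual_le h E {e}
    have k2 : E \ {e} = E.erase e := by rw [Finset.sdiff_singleton_eq_erase]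
    have k3 : r (E.erase e) ≤ r E := h.mono_subset (Finset.erase_subset _ _)
    have k4 := dual_le h E (E.erase e)
    have k5 := Finset.card_erase_add_one heE
    have k6 := h.card_le ∅ {e}
    rw [Finset.empty_union, h.empty, Finset.card_singleton] at k6
    rw [Finset.empty_union, insert_empty_eq]
    unfold dual
    rw [sdiff_erase_self heE] at k4 ⊢
    rw [k2] at k1 ⊢
    rw [Finset.card_singleton] at k1 ⊢
    omega
  rw [forall₂_congr key]
  refine and_congr_right fun _ => ?_
  unfold dual
  rw [Finset.sdiff_sdiff_eq_self hS, hc]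
  rw [hc] at h1
  omega

theorem dg_dual (h : IsRank r) (E : Finset α) : dg (dual r E) ∅ E = dg r ∅ E := by
  ext S
  rw [mem_dg, mem_dg]
  constructor
  · rintro ⟨a1, a2, a3⟩
    exact ⟨a1, a2, (isDig_dual h a1 a2).1 a3⟩
  · rintro ⟨a1, a2, a3⟩
    exact ⟨a1, a2, (isDig_dual h a1 a2).2 a3⟩

/-- the region: `x + y ≤ 0`, below the diagonal -/
def Low (x y : ℝ) : Prop :=
  -1 < y ∧ x + y ≤ 0 ∧ 0 < x ∧ 0 < x + y + y ^ 2 + y ^ 3 ∧ 0 < x + x ^ 2 + y

/-- **The sign of the Tutte polynomial of a matroid.** -/
theorem main (h : IsRank r) {x y : ℝ} (hx : |x| < 1) (hy : |y| < 1)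
    (hxy : 0 < x + y ∨ Low x y ∨ Low y x) (E : Finset α) :
    ∃ c : ℝ, 0 < c ∧ TT r x y ∅ E = c * (y ^ (lo r ∅ E).card * x ^ (co r ∅ E).card *
      (x + y) ^ (dg r ∅ E).card) := by
  rcases hxy with h0 | ⟨h1, h2, h3, h4, h5⟩ | ⟨h1, h2, h3, h4, h5⟩
  · exact factorJS h hx hy h0 ∅ E.card E rfl
  · exact factor h h3 h2 h1 h4 h5 ∅ E.card E rfl
  · obtain ⟨c, hc, hT⟩ := factor (dual_isRank h E) h3 h2 h1 h4 h5 ∅ E.card E rfl
    refine ⟨c, hc, ?_⟩
    rw [TT_dual h, lo_dual h, co_dual h, dg_dual h] at hT
    rw [hT]
    ring

end Pool.Agent.TSG
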