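import Pool.Agent.TSG.Wts

/-!
# The sign of the Tutte polynomial: loops, coloops and blocks of two elements
-/

set_option autoImplicit false

namespace Pool.Agent.TSG

open Finset Pool.Agent.QPR

variable {α : Type} [DecidableEq α] {r : Finset α → ℕ}

/-- the Tutte polynomial and the multivariate polynomial -/
theorem TT_eq_SZ (h : IsRank r) {x y : ℝ} (hx : x ≠ 1) (hy : y ≠ 1) (C R : Finset α) :
    TT r x y C R =
      (1 - x) ^ (r (C ∪ R) - r C) * SZ r ((x - 1) * (y - 1)) (fun _ => y) C R := by
  have hx' : x - 1 ≠ 0 := sub_ne_zero.2 hx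
  have hy' : y - 1 ≠ 0 := sub_ne_zero.2 hy
  unfold TT SZ
  rw [← mul_assoc, ← mul_pow, show (1 - x) * (-1 : ℝ) = x - 1 by ring, Finset.mul_sum]
  apply Finset.sum_congr rfl
  intro A hA
  have h1 : r C ≤ r (C ∪ A) := h.mono_subset Finset.subset_union_left
  have h2 : r (C ∪ A) ≤ r (C ∪ R) :=
    h.mono_subset (Finset.union_subset_union_right (Finset.mem_powerset.1 hA))
  have h3 := h.card_le C A
  rw [Finset.prod_const]
  obtain ⟨s, hs⟩ : ∃ s, s = r (C ∪ A) - r C := ⟨_, rfl⟩
  obtain ⟨t, ht⟩ : ∃ t, t = r (C ∪ R) - r (C ∪ A) := ⟨_, rfl⟩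
  obtain ⟨u, hu⟩ : ∃ u, u = A.card + r C - r (C ∪ A) := ⟨_, rfl⟩
  rw [← hs, ← ht, ← hu, show r (C ∪ R) - r C = t + s by omega, show A.card = u + s by omega,
    mul_inv, mul_pow, inv_pow, inv_pow, pow_add, pow_add]
  field_simp

/-- loops of the minor -/
def lo (r : Finset α → ℕ) (C R : Finset α) : Finset α := R.filter fun e => r (insert e C) = r C

/-- coloops of the minor -/
def co (r : Finset α → ℕ) (C R : Finset α) : Finset α :=
  R.filter fun e => r (C ∪ R.erase e) + 1 = r (C ∪ R)

/-- `S` is a block of two elements, not loops, not coloops -/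
def IsDig (r : Finset α → ℕ) (C R S : Finset α) : Prop :=
  (∀ e ∈ S, r (insert e C) = r C + 1 ∧ r (C ∪ R.erase e) = r (C ∪ R)) ∧
    r (C ∪ S) = r C + 1 ∧ r (C ∪ (R \ S)) + 1 = r (C ∪ R)

instance (r : Finset α → ℕ) (C R S : Finset α) : Decidable (IsDig r C R S) := by
  unfold IsDig
  infer_instance

/-- the blocks of two elements -/
def dg (r : Finset α → ℕ) (C R : Finset α) : Finset (Finset α) :=
  (R.powersetCard 2).filter (IsDig r C R)

theorem mem_dg {C R S : Finset α} : S ∈ dg r C R ↔ S ⊆ R ∧ S.card = 2 ∧ IsDig r C R S := by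
  unfold dg
  rw [Finset.mem_filter, Finset.mem_powersetCard, and_assoc]

/-! ### removing a loop -/

section Loop

variable {C R : Finset α} {e : α}

theorem loop_rank (h : IsRank r) (hl : r (insert e C) = r C) (A : Finset α) :
    r (insert e (C ∪ A)) = r (C ∪ A) := h.closure hl Finset.subset_union_left

theorem lo_loop (he : e ∉ R) (hl : r (insert e C) = r C) :
    (lo r C (insert e R)).card = (lo r C R).card + 1 := by
  unfold lo
  rw [Finset.filter_insert, if_pos hl, Finset.card_insert_of_notMem]
  exact fun h => he (Finset.mem_of_mem_filter _ h)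

theorem erase_insert' (R : Finset α) {e g : α} (hg : g ≠ e) :
    (insert e R).erase g = insert e (R.erase g) :=
  Finset.erase_insert_of_ne (fun h => hg h.symm)

theorem co_loop (h : IsRank r) (he : e ∉ R) (hl : r (insert e C) = r C) :
    co r C (insert e R) = co r C R := by
  unfold co
  ext g
  simp only [Finset.mem_filter, Finset.mem_insert]
  rw [Finset.union_insert, loop_rank h hl]
  constructor
  · rintro ⟨rfl | hg, h1⟩
    · rw [Finset.erase_insert he] at h1
      omega
    · have hge : g ≠ e := fun h => he (h ▸ hg)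
      rw [erase_insert' R hge, Finset.union_insert, loop_rank h hl] at h1
      exact ⟨hg, h1⟩
  · rintro ⟨hg, h1⟩
    have hge : g ≠ e := fun h => he (h ▸ hg)
    rw [erase_insert' R hge, Finset.union_insert, loop_rank h hl]
    exact ⟨Or.inr hg, h1⟩

theorem isDig_loop (h : IsRank r) (he : e ∉ R) (hl : r (insert e C) = r C) {S : Finset α}
    (hS : S ⊆ R) : IsDig r C (insert e R) S ↔ IsDig r C R S := by
  unfold IsDig
  have hd : insert e R \ S = insert e (R \ S) :=
    Finset.insert_sdiff_of_notMem _ fun h => he (hS h)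
  rw [hd, Finset.union_insert, Finset.union_insert, loop_rank h hl, loop_rank h hl]
  refine and_congr_left fun _ => ?_
  refine forall₂_congr fun g hg => ?_
  have hge : g ≠ e := fun h => he (h ▸ hS hg)
  rw [erase_insert' R hge, Finset.union_insert, loop_rank h hl]

theorem dg_loop (h : IsRank r) (he : e ∉ R) (hl : r (insert e C) = r C) :
    dg r C (insert e R) = dg r C R := by
  ext S
  rw [mem_dg, mem_dg]
  constructor
  · rintro ⟨h1, h2, h3⟩
    have heS : e ∉ S := by
      intro heS
      have := (h3.1 e heS).1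
      omega
    have hS : S ⊆ R := by
      rwa [Finset.subset_insert_iff_of_notMem heS] at h1
    exact ⟨hS, h2, (isDig_loop h he hl hS).1 h3⟩
  · rintro ⟨h1, h2, h3⟩
    exact ⟨h1.trans (Finset.subset_insert _ _), h2, (isDig_loop h he hl h1).2 h3⟩

end Loop

/-! ### removing a coloop -/

section Coloop

variable {C R : Finset α} {e : α}

theorem coloop_rank (h : IsRank r) (hc : r (insert e (C ∪ R)) = r (C ∪ R) + 1) {A : Finset α}
    (hA : A ⊆ R) : r (insert e (C ∪ A)) = r (C ∪ A) + 1 :=
  h.coclosure (by omega) (Finset.union_subset_union_right hA)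

theorem coloop_nl (h : IsRank r) (hc : r (insert e (C ∪ R)) = r (C ∪ R) + 1) :
    r (insert e C) = r C + 1 := by
  have := coloop_rank h hc (Finset.empty_subset R)
  rwa [Finset.union_empty] at this

theorem lo_coloop (h : IsRank r) (hc : r (insert e (C ∪ R)) = r (C ∪ R) + 1) :
    lo r C (insert e R) = lo r C R := by
  unfold lo
  rw [Finset.filter_insert, if_neg]
  have := coloop_nl h hc
  omega

theorem co_coloop (h : IsRank r) (he : e ∉ R) (hc : r (insert e (C ∪ R)) = r (C ∪ R) + 1) :
    (co r C (insert e R)).card = (co r C R).card + 1 := by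
  have h1 : co r C (insert e R) = insert e (co r C R) := by
    unfold co
    ext g
    simp only [Finset.mem_filter, Finset.mem_insert]
    rw [Finset.union_insert, hc]
    by_cases hge : g = e
    · subst hge
      rw [Finset.erase_insert he]
      simp
    · rw [erase_insert' R hge, Finset.union_insert, coloop_rank h hc (Finset.erase_subset _ _)]
      simp only [hge, false_or]
      constructor
      · rintro ⟨h1, h2⟩
        exact ⟨h1, by omega⟩
      · rintro ⟨h1, h2⟩
        exact ⟨h1, by omega⟩
  rw [h1, Finset.card_insert_of_notMem]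
  exact fun h => he (Finset.mem_of_mem_filter _ h)

theorem dg_coloop (h : IsRank r) (he : e ∉ R) (hc : r (insert e (C ∪ R)) = r (C ∪ R) + 1) :
    dg r C (insert e R) = dg r C R := by
  have key : ∀ S ⊆ R, (IsDig r C (insert e R) S ↔ IsDig r C R S) := by
    intro S hS
    unfold IsDig
    have hd : insert e R \ S = insert e (R \ S) :=
      Finset.insert_sdiff_of_notMem _ fun h => he (hS h)
    rw [hd, Finset.union_insert, Finset.union_insert, hc, coloop_rank h hc Finset.sdiff_subset]
    have h1 : r (C ∪ (R \ S)) + 1 + 1 = r (C ∪ R) + 1 ↔ r (C ∪ (R \ S)) + 1 = r (C ∪ R) := by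
      omega
    rw [h1]
    refine and_congr_left fun _ => ?_
    refine forall₂_congr fun g hg => ?_
    have hge : g ≠ e := fun h => he (h ▸ hS hg)
    rw [erase_insert' R hge, Finset.union_insert, coloop_rank h hc (Finset.erase_subset _ _)]
    refine and_congr_right fun _ => ?_
    omega
  ext S
  rw [mem_dg, mem_dg]
  constructor
  · rintro ⟨h1, h2, h3⟩
    have heS : e ∉ S := by
      intro heS
      have := (h3.1 e heS).2
      rw [Finset.erase_insert he, Finset.union_insert, hc] at this
      omega
    have hS : S ⊆ R := by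
      rwa [Finset.subset_insert_iff_of_notMem heS] at h1
    exact ⟨hS, h2, (key S hS).1 h3⟩
  · rintro ⟨h1, h2, h3⟩
    exact ⟨h1.trans (Finset.subset_insert _ _), h2, (key S h1).2 h3⟩

/-- the Tutte polynomial of a minor with a coloop -/
theorem TT_coloop' (h : IsRank r) (x y : ℝ) (he : e ∉ R)
    (hc : r (insert e (C ∪ R)) = r (C ∪ R) + 1) :
    TT r x y C (insert e R) = x * TT r x y C R := by
  rw [TT_coloop h x y C he (by omega)]
  congr 1
  unfold TT
  apply Finset.sum_congr rfl
  intro A hA
  have hA' := Finset.mem_powerset.1 hA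
  rw [Finset.insert_union, Finset.insert_union, hc, coloop_rank h hc hA', coloop_nl h hc,
    Nat.add_sub_add_right, ← add_assoc, Nat.add_sub_add_right]

end Coloop

/-! ### removing a block of two elements -/

section Digon

variable {C R : Finset α} {e f : α}

/-- the situation: `e, f` is a block of `insert e (insert f R)` -/
structure Blk (r : Finset α → ℕ) (C R : Finset α) (e f : α) : Prop where
  he : e ∉ R
  hf : f ∉ R
  hef : e ≠ f
  ce : r (insert e (C ∪ R)) = r (C ∪ R) + 1
  cf : r (insert f (C ∪ R)) = r (C ∪ R) + 1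
  par : r (insert e (insert f C)) = r C + 1

theorem Blk.e_nl (h : IsRank r) (B : Blk r C R e f) : r (insert e C) = r C + 1 :=
  coloop_nl h B.ce

theorem Blk.f_nl (h : IsRank r) (B : Blk r C R e f) : r (insert f C) = r C + 1 :=
  coloop_nl h B.cf

theorem Blk.both (h : IsRank r) (B : Blk r C R e f) {A : Finset α} (hA : A ⊆ R) :
    r (insert e (insert f (C ∪ A))) = r (C ∪ A) + 1 := by
  have h1 : r (insert e (insert f C)) = r (insert f C) := by rw [B.par, B.f_nl h]
  rw [h.closure h1 (Finset.insert_subset_insert _ Finset.subset_union_left),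
    coloop_rank h B.cf hA]

theorem Blk.symm (B : Blk r C R e f) : Blk r C R f e :=
  ⟨B.hf, B.he, B.hef.symm, B.cf, B.ce, by rw [Finset.insert_comm]; exact B.par⟩

theorem lo_blk (h : IsRank r) (B : Blk r C R e f) :
    lo r C (insert e (insert f R)) = lo r C R := by
  unfold lo
  rw [Finset.filter_insert, if_neg, Finset.filter_insert, if_neg]
  · have := B.f_nl h
    omega
  · have := B.e_nl h
    omega

theorem erase2 (R : Finset α) {e f g : α} (he : g ≠ e) (hf : g ≠ f) :
    (insert e (insert f R)).erase g = insert e (insert f (R.erase g)) := by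
  rw [erase_insert' _ he, erase_insert' _ hf]

theorem co_blk (h : IsRank r) (B : Blk r C R e f) :
    co r C (insert e (insert f R)) = co r C R := by
  have hR := B.both h (Finset.Subset.refl R)
  have he' : e ∉ insert f R := by
    rw [Finset.mem_insert, not_or]
    exact ⟨B.hef, B.he⟩
  unfold co
  ext g
  simp only [Finset.mem_filter, Finset.mem_insert]
  rw [Finset.union_insert, Finset.union_insert, hR]
  by_cases hge : g = e
  · subst hge
    rw [Finset.erase_insert he', Finset.union_insert, B.cf]
    simp only [B.he, false_and, iff_false, not_and]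
    intro _
    omega
  by_cases hgf : g = f
  · subst hgf
    rw [erase_insert' _ hge, Finset.erase_insert B.hf, Finset.union_insert, B.ce]
    simp only [B.hf, false_and, iff_false, not_and]
    intro _
    omega
  rw [erase2 R hge hgf, Finset.union_insert, Finset.union_insert, B.both h (Finset.erase_subset _ _)]
  simp only [hge, hgf, false_or]
  refine and_congr_right fun _ => ?_
  omega

theorem dg_blk (h : IsRank r) (B : Blk r C R e f) :
    (dg r C (insert e (insert f R))).card = (dg r C R).card + 1 := by
  have hR := B.both h (Finset.Subset.refl R)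
  have he' : e ∉ insert f R := by
    rw [Finset.mem_insert, not_or]
    exact ⟨B.hef, B.he⟩
  have hu : r (C ∪ insert e (insert f R)) = r (C ∪ R) + 1 := by
    rw [Finset.union_insert, Finset.union_insert, hR]
  -- blocks inside `R`
  have key : ∀ S ⊆ R, (IsDig r C (insert e (insert f R)) S ↔ IsDig r C R S) := by
    intro S hS
    unfold IsDig
    have hd : insert e (insert f R) \ S = insert e (insert f (R \ S)) := by
      rw [Finset.insert_sdiff_of_notMem _ fun h => B.he (hS h),
        Finset.insert_sdiff_of_notMem _ fun h => B.hf (hS h)]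
    rw [hd, hu, Finset.union_insert, Finset.union_insert, B.both h Finset.sdiff_subset]
    have h1 : r (C ∪ (R \ S)) + 1 + 1 = r (C ∪ R) + 1 ↔ r (C ∪ (R \ S)) + 1 = r (C ∪ R) := by
      omega
    rw [h1]
    refine and_congr_left fun _ => ?_
    refine forall₂_congr fun g hg => ?_
    have hge : g ≠ e := fun h => B.he (h ▸ hS hg)
    have hgf : g ≠ f := fun h => B.hf (h ▸ hS hg)
    rw [erase2 R hge hgf, Finset.union_insert, Finset.union_insert,
      B.both h (Finset.erase_subset _ _)]
    refine and_congr_right fun _ => ?_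
    omega
  -- a block which meets `e, f` is equal to it
  have meet : ∀ {e f : α}, Blk r C R e f → ∀ S ⊆ insert e (insert f R), S.card = 2 →
      IsDig r C (insert e (insert f R)) S → e ∈ S → f ∈ S := by
    intro e f B S hS hc hD heS
    by_contra hfS
    have hf' : f ∈ insert e (insert f R) \ S := by
      simp [hfS]
    -- `f` spans `e`, and `S`
    have h1 : r (insert f (C ∪ S)) = r (C ∪ S) := by
      refine h.closure (A := insert e C) ?_ ?_
      · rw [Finset.insert_comm, B.par, B.e_nl h]
      · refine Finset.insert_subset ?_ Finset.subset_union_left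
        exact Finset.mem_union_right _ heS
    have hD2 := hD.2.1
    have h2 : ∀ g ∈ S, r (insert g (C ∪ (insert e (insert f R) \ S))) =
        r (C ∪ (insert e (insert f R) \ S)) := by
      intro g hg
      refine h.closure (A := insert f C) ?_ ?_
      · have h3 : insert g (insert f C) ⊆ insert f (C ∪ S) := by
          intro z hz
          simp only [Finset.mem_insert, Finset.mem_union] at hz ⊢
          rcases hz with rfl | rfl | hz
          · exact Or.inr (Or.inr hg)
          · exact Or.inl rfl
          · exact Or.inr (Or.inl hz)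
        have h4 := h.mono_subset h3
        rw [h1, hD2] at h4
        have h5 := h.mono (insert f C) g
        have h6 := B.f_nl h
        omega
      · refine Finset.insert_subset ?_ Finset.subset_union_left
        exact Finset.mem_union_right _ hf'
    obtain ⟨a, b, hab, rfl⟩ := Finset.card_eq_two.1 hc
    have h7 := h2 a (by simp)
    have h8 := h2 b (by simp)
    have h9 := h.closed _ a b h7 h8
    have h10 : C ∪ insert e (insert f R) ⊆
        insert a (insert b (C ∪ (insert e (insert f R) \ {a, b}))) := by
      intro z hz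
      simp only [Finset.mem_insert, Finset.mem_union, Finset.mem_sdiff, Finset.mem_singleton] at hz ⊢
      by_cases hza : z = a
      · exact Or.inl hza
      by_cases hzb : z = b
      · exact Or.inr (Or.inl hzb)
      tauto
    have h11 := h.mono_subset h10
    have h12 := hD.2.2
    omega
  have hpair : IsDig r C (insert e (insert f R)) {e, f} := by
    refine ⟨?_, ?_, ?_⟩
    · intro g hg
      rw [Finset.mem_insert, Finset.mem_singleton] at hg
      rcases hg with rfl | rfl
      · refine ⟨B.e_nl h, ?_⟩
        rw [Finset.erase_insert he', hu, Finset.union_insert, B.cf]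
      · refine ⟨B.f_nl h, ?_⟩
        rw [erase_insert' _ (Ne.symm B.hef), Finset.erase_insert B.hf, hu, Finset.union_insert,
          B.ce]
    · have : C ∪ {e, f} = insert e (insert f C) := by
        rw [Finset.union_comm, Finset.insert_union, Finset.singleton_union]
      rw [this, B.par]
    · have : insert e (insert f R) \ {e, f} = R := by
        ext z
        simp only [Finset.mem_sdiff, Finset.mem_insert, Finset.mem_singleton]
        constructor
        · rintro ⟨h1, h2⟩
          tauto
        · intro hz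
          refine ⟨Or.inr (Or.inr hz), ?_⟩
          rintro (rfl | rfl)
          · exact B.he hz
          · exact B.hf hz
      rw [this, hu]
  have h1 : dg r C (insert e (insert f R)) = insert {e, f} (dg r C R) := by
    ext S
    rw [Finset.mem_insert, mem_dg, mem_dg]
    constructor
    · rintro ⟨a1, a2, a3⟩
      by_cases heS : e ∈ S
      · left
        have hfS := meet B S a1 a2 a3 heS
        refine (Finset.eq_of_subset_of_card_le ?_ ?_).symm
        · intro z hz
          rw [Finset.mem_insert, Finset.mem_singleton] at hz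
          rcases hz with rfl | rfl
          · exact heS
          · exact hfS
        · rw [a2, Finset.card_pair B.hef]
      · right
        have hfS : f ∉ S := by
          intro hfS
          rw [Finset.insert_comm] at a1 a3
          exact heS (meet B.symm S a1 a2 a3 hfS)
        have hS : S ⊆ R := by
          rw [Finset.subset_insert_iff_of_notMem heS,
            Finset.subset_insert_iff_of_notMem hfS] at a1
          exact a1
        exact ⟨hS, a2, (key S hS).1 a3⟩
    · rintro (rfl | ⟨a1, a2, a3⟩)
      · refine ⟨?_, Finset.card_pair B.hef, hpair⟩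
        intro z hz
        rw [Finset.mem_insert, Finset.mem_singleton] at hz
        rcases hz with rfl | rfl <;> simp
      · exact ⟨a1.trans ((Finset.subset_insert _ _).trans (Finset.subset_insert _ _)), a2,
          (key S a1).2 a3⟩
  rw [h1, Finset.card_insert_of_notMem]
  intro hmem
  exact B.he ((mem_dg.1 hmem).1 (by simp))

/-- the Tutte polynomial of a minor with a block of two elements -/
theorem TT_blk (h : IsRank r) {x y : ℝ} (hx : x < 1) (hy : y < 1) (B : Blk r C R e f) :
    TT r x y C (insert e (insert f R)) = (x + y) * TT r x y C R := by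
  have hq : 0 < (x - 1) * (y - 1) := mul_pos_of_neg_of_neg (by linarith) (by linarith)
  have h1 : 1 - x ≠ 0 := by linarith
  have h2 : 1 - y ≠ 0 := by linarith
  have hm : r C ≤ r (C ∪ R) := h.mono_subset Finset.subset_union_left
  rw [TT_eq_SZ h hx.ne hy.ne, TT_eq_SZ h hx.ne hy.ne,
    SZ_dig h hq (fun _ => y) B.he B.hf B.hef B.ce B.cf B.par,
    Finset.union_insert, Finset.union_insert, B.both h (Finset.Subset.refl R),
    show r (C ∪ R) + 1 - r C = (r (C ∪ R) - r C) + 1 by omega, pow_succ]
  have h3 : (1 - (x - 1) * (y - 1) - y * y) / ((x - 1) * (y - 1)) = (x + y) / (1 - x) := by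
    rw [div_eq_div_iff hq.ne' h1]
    ring
  rw [h3]
  field_simp

end Digon

/-- the factors, if the plain minors have positive values -/
theorem factor_of (h : IsRank r) {x y : ℝ} (hx1 : x < 1) (hy1 : y < 1) (C : Finset α)
    (hpos : ∀ R : Finset α, (∀ e ∈ R, r (insert e C) = r C + 1) →
      (∀ e ∈ R, r (C ∪ R.erase e) = r (C ∪ R)) →
      (∀ e ∈ R, ∀ f ∈ R, e ≠ f → r (insert e (insert f C)) = r C + 1 →
        r (C ∪ (R.erase e).erase f) + 1 ≠ r (C ∪ R)) →
      0 < SZ r ((x - 1) * (y - 1)) (fun _ => y) C R) :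
    ∀ (n : ℕ) (R : Finset α), R.card = n → ∃ c : ℝ, 0 < c ∧
      TT r x y C R = c * (y ^ (lo r C R).card * x ^ (co r C R).card *
        (x + y) ^ (dg r C R).card) := by
  intro n
  induction n using Nat.strong_induction_on with
  | _ n ih =>
  intro R hn
  by_cases hl : ∃ e ∈ R, r (insert e C) = r C
  · obtain ⟨e, he, hl⟩ := hl
    have hR : insert e (R.erase e) = R := Finset.insert_erase he
    have he' : e ∉ R.erase e := Finset.notMem_erase e R
    obtain ⟨c, hc, hT⟩ := ih (R.erase e).card (by
      rw [← hn]
      exact Finset.card_erase_lt_of_mem he) (R.erase e) rfl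
    refine ⟨c, hc, ?_⟩
    rw [← hR, TT_loop h x y C he' hl, hT, lo_loop he' hl, co_loop h he' hl, dg_loop h he' hl,
      pow_succ]
    ring
  push Not at hl
  have hnl : ∀ e ∈ R, r (insert e C) = r C + 1 := by
    intro e he
    have := hl e he
    have := h.mono C e
    have := h.le_succ C e
    omega
  by_cases hc : ∃ e ∈ R, r (C ∪ R.erase e) + 1 = r (C ∪ R)
  · obtain ⟨e, he, hc⟩ := hc
    have hR : insert e (R.erase e) = R := Finset.insert_erase he
    have he' : e ∉ R.erase e := Finset.notMem_erase e R
    have hc' : r (insert e (C ∪ R.erase e)) = r (C ∪ R.erase e) + 1 := by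
      rw [← Finset.union_insert, hR, hc]
    obtain ⟨c, hc0, hT⟩ := ih (R.erase e).card (by
      rw [← hn]
      exact Finset.card_erase_lt_of_mem he) (R.erase e) rfl
    refine ⟨c, hc0, ?_⟩
    rw [← hR, TT_coloop' h x y he' hc', hT, lo_coloop h hc', co_coloop h he' hc',
      dg_coloop h he' hc', pow_succ]
    ring
  push Not at hc
  have hnc : ∀ e ∈ R, r (C ∪ R.erase e) = r (C ∪ R) := by
    intro e he
    have := hc e he
    have := le_erase h C R e
    have := erase_le h C R e
    omega
  by_cases hd : ∃ e ∈ R, ∃ f ∈ R, e ≠ f ∧ r (insert e (insert f C)) = r C + 1 ∧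
      r (C ∪ (R.erase e).erase f) + 1 = r (C ∪ R)
  · obtain ⟨e, he, f, hf, hef, hp, hs⟩ := hd
    have hR := eq_insert2 he hf hef
    have B : Blk r C ((R.erase e).erase f) e f := by
      refine ⟨by simp, by simp, hef, ?_, ?_, hp⟩
      · have a1 : insert e (C ∪ (R.erase e).erase f) = C ∪ R.erase f := by
          rw [← Finset.union_insert, Finset.erase_right_comm,
            Finset.insert_erase (Finset.mem_erase.2 ⟨hef, he⟩)]
        rw [a1, hnc f hf, hs]
      · have a1 : insert f (C ∪ (R.erase e).erase f) = C ∪ R.erase e := by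
          rw [← Finset.union_insert, Finset.insert_erase (Finset.mem_erase.2 ⟨hef.symm, hf⟩)]
        rw [a1, hnc e he, hs]
    obtain ⟨c, hc0, hT⟩ := ih ((R.erase e).erase f).card (by
      rw [← hn]
      exact (Finset.card_le_card (Finset.erase_subset _ _)).trans_lt
        (Finset.card_erase_lt_of_mem he)) ((R.erase e).erase f) rfl
    refine ⟨c, hc0, ?_⟩
    rw [hR, TT_blk h hx1 hy1 B, hT, lo_blk h B, co_blk h B, dg_blk h B, pow_succ]
    ring
  push Not at hd
  have hpos' := hpos R hnl hnc hd
  refine ⟨(1 - x) ^ (r (C ∪ R) - r C) * SZ r ((x - 1) * (y - 1)) (fun _ => y) C R,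
    mul_pos (pow_pos (by linarith) _) hpos', ?_⟩
  have e1 : (lo r C R).card = 0 := by
    rw [Finset.card_eq_zero]
    unfold lo
    rw [Finset.filter_eq_empty_iff]
    exact hl
  have e2 : (co r C R).card = 0 := by
    rw [Finset.card_eq_zero]
    unfold co
    rw [Finset.filter_eq_empty_iff]
    exact hc
  have e3 : (dg r C R).card = 0 := by
    rw [Finset.card_eq_zero]
    apply Finset.eq_empty_of_forall_notMem
    intro S hS
    obtain ⟨a1, a2, a3, a4, a5⟩ := mem_dg.1 hS
    obtain ⟨a, b, hab, rfl⟩ := Finset.card_eq_two.1 a2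
    refine hd a (a1 (by simp)) b (a1 (by simp)) hab ?_ ?_
    · have : C ∪ {a, b} = insert a (insert b C) := by
        rw [Finset.union_comm, Finset.insert_union, Finset.singleton_union]
      rw [← this, a4]
    · have : (R.erase a).erase b = R \ {a, b} := by
        ext z
        simp only [Finset.mem_erase, Finset.mem_sdiff, Finset.mem_insert, Finset.mem_singleton]
        tauto
      rw [this, a5]
  rw [e1, e2, e3, TT_eq_SZ h hx1.ne hy1.ne]
  ring

/-- **The sign of the Tutte polynomial of a minor**, below the line `x + y = 0`. -/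
theorem factor (h : IsRank r) {x y : ℝ} (hx : 0 < x) (hxy : x + y ≤ 0) (hy : -1 < y)
    (h1 : 0 < x + y + y ^ 2 + y ^ 3) (h2 : 0 < x + x ^ 2 + y) (C : Finset α) :
    ∀ (n : ℕ) (R : Finset α), R.card = n → ∃ c : ℝ, 0 < c ∧
      TT r x y C R = c * (y ^ (lo r C R).card * x ^ (co r C R).card *
        (x + y) ^ (dg r C R).card) := by
  refine factor_of h (by linarith) (by linarith) C fun R hnl hnc hd => ?_
  obtain ⟨m, W⟩ := cls (x := x) (a := -y) hx (by linarith) (by linarith)
    (by nlinarith) (by linarith)
  have hq : (1 - x) * (1 + -y) = (x - 1) * (y - 1) := by ring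
  rw [hq] at W
  have G : Good r (fun z => z = - -y) (fun z => -m ≤ z ∧ z ≤ (-y) ^ 2) (fun _ => y) C R :=
    ⟨hnl, hnc, fun e _ => Or.inl (by simp), fun e he f hf hef a1 a2 =>
      absurd a2 (hd e he f hf hef a1)⟩
  exact pos_main h W R.card R rfl C (fun _ => y) G

/-- the weight class of Jackson and Sokal: `|y| < s`, `s ^ 2 = 1 - q` -/
theorem clsJS {s : ℝ} (hs : 0 < s) (hs1 : s < 1) :
    Cls (1 - s ^ 2) (fun _ => False) (fun y => -s < y ∧ y < s) := by
  have hs2 : 0 < 1 - s ^ 2 := by nlinarith
  have hmul : ∀ y z : ℝ, -s < y → y < s → -s < z → z < s → -s ^ 2 < y * z ∧ y * z < s ^ 2 := by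
    intro y z h1 h2 h3 h4
    constructor <;> nlinarith [mul_pos (sub_pos.2 h2) (sub_pos.2 h4),
      mul_pos (sub_pos.2 h1) (sub_pos.2 h3), mul_pos (sub_pos.2 h2) (sub_pos.2 h3),
      mul_pos (sub_pos.2 h1) (sub_pos.2 h4)]
  refine ⟨hs2, ?_, ?_, ?_, ?_⟩
  · rintro y (h | ⟨_, h⟩)
    · exact h.elim
    · linarith
  · rintro y z (h | ⟨h1, h2⟩) (h' | ⟨h3, h4⟩)
    · exact h.elim
    · exact h.elim
    · exact h'.elim
    · obtain ⟨a1, a2⟩ := hmul y z h1 h2 h3 h4
      constructor <;> nlinarith
  · rintro y z (h | ⟨h1, h2⟩) (h' | ⟨h3, h4⟩)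
    · exact h.elim
    · exact h.elim
    · exact h'.elim
    · obtain ⟨a1, a2⟩ := hmul y z h1 h2 h3 h4
      have hneg : 1 - s ^ 2 + (y - 1) + (z - 1) < 0 := by nlinarith [sq_nonneg (1 - s)]
      refine ⟨hneg, (s ^ 2 - y * z) / (1 + s ^ 2 - y - z), ?_, ?_⟩
      · have hden : 0 < 1 + s ^ 2 - y - z := by linarith
        constructor
        · rw [lt_div_iff₀ hden]
          have h5 : 0 < s * (1 + s ^ 2 - y - z) := mul_pos hs hden
          linarith
        · rw [div_lt_iff₀ hden]
          nlinarith [mul_pos (sub_pos.2 h2) (sub_pos.2 h4), mul_nonneg hs.le (sq_nonneg (1 - s))]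
      · have hden : 1 + s ^ 2 - y - z ≠ 0 := by linarith
        have e1 : (s ^ 2 - y * z) / (1 + s ^ 2 - y - z) - 1 =
            (y - 1) * (z - 1) / (1 - s ^ 2 + (y - 1) + (z - 1)) := by
          rw [div_sub_one hden, div_eq_div_iff hden hneg.ne]
          ring
        rw [e1, mul_div_assoc', mul_comm, mul_div_assoc, div_self hneg.ne, mul_one]
  · rintro y z (h | ⟨h1, h2⟩) (h' | ⟨h3, h4⟩) _
    · exact h.elim
    · exact h.elim
    · exact h'.elim
    · obtain ⟨a1, a2⟩ := hmul y z h1 h2 h3 h4
      linarith

/-- the sign above the line `x + y = 0` (Jackson and Sokal) -/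
theorem factorJS (h : IsRank r) {x y : ℝ} (hx : |x| < 1) (hy : |y| < 1) (hxy : 0 < x + y)
    (C : Finset α) :
    ∀ (n : ℕ) (R : Finset α), R.card = n → ∃ c : ℝ, 0 < c ∧
      TT r x y C R = c * (y ^ (lo r C R).card * x ^ (co r C R).card *
        (x + y) ^ (dg r C R).card) := by
  rw [abs_lt] at hx hy
  refine factor_of h hx.2 hy.2 C fun R hnl hnc _ => ?_
  have hq : 0 < x + y - x * y := by
    rcases le_or_gt y 0 with h0 | h0
    · nlinarith [mul_nonneg (by linarith : (0 : ℝ) ≤ x) (neg_nonneg.2 h0)]
    · rcases le_or_gt x 0 with h1 | h1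
      · nlinarith [mul_nonneg h0.le (neg_nonneg.2 h1)]
      · nlinarith [mul_pos h1 (sub_pos.2 hy.2)]
  have hq0 : 0 < (1 - x) * (1 - y) := mul_pos (sub_pos.2 hx.2) (sub_pos.2 hy.2)
  have hs0 := Real.sqrt_pos.2 hq
  have hs2 : Real.sqrt (x + y - x * y) ^ 2 = x + y - x * y := Real.sq_sqrt hq.le
  have hs1 : Real.sqrt (x + y - x * y) < 1 := by
    rw [Real.sqrt_lt' one_pos]
    nlinarith
  have W := clsJS hs0 hs1
  have e1 : 1 - Real.sqrt (x + y - x * y) ^ 2 = (x - 1) * (y - 1) := by
    rw [hs2]
    ring
  rw [e1] at W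
  have hys : y ^ 2 < x + y - x * y := by nlinarith [mul_pos hxy (sub_pos.2 hy.2)]
  rw [← hs2] at hys
  have hyb := abs_lt.1 (abs_lt_of_sq_lt_sq hys hs0.le)
  have G : Good r (fun _ => False) (fun z => -Real.sqrt (x + y - x * y) < z ∧
      z < Real.sqrt (x + y - x * y)) (fun _ => y) C R :=
    ⟨hnl, hnc, fun e _ => Or.inr hyb, fun e _ f _ _ _ _ => Or.inl hyb⟩
  exact pos_main h W R.card R rfl C (fun _ => y) G

end Pool.Agent.TSG
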