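import Pool.Agent.TSG.Dual
import Pool.Agent.QPR.Graph

/-!
# The sign of the Tutte polynomial: graphs, and the two extremal graphs
-/

set_option autoImplicit false

namespace Pool.Agent.TSG

open Finset Pool.Agent.QPR Pool.Agent.TutteHard Pool.Agent.TutteEq

/-- the rank function of a graph, on sets of edges -/
theorem rank_isRank (G : MGraph) : IsRank (rank G) := by
  have hi : ∀ (A : Finset (Fin G.length)) (e : Fin G.length),
      rank G (insert e A) = grk (insert (labAt G e) (A.map ⟨labAt G, labAt_injective G⟩)) := by
    intro A e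
    rw [← grk_map, Finset.map_insert]
    rfl
  refine ⟨?_, ?_, ?_, ?_⟩
  · rw [← grk_map, Finset.map_empty]
    exact grk_isRank.empty
  · intro A e
    rw [hi, ← grk_map]
    exact grk_isRank.mono _ _
  · intro A e
    rw [hi, ← grk_map]
    exact grk_isRank.le_succ _ _
  · intro A e f he hf
    rw [hi, ← grk_map] at he hf
    rw [hi, Finset.map_insert, ← grk_map]
    exact grk_isRank.closed _ _ _ he hf

theorem tutte_eq (G : MGraph) (x y : ℝ) : tutte G x y = TT (rank G) x y ∅ Finset.univ := by
  unfold tutte TT
  rw [Finset.powerset_univ]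
  apply Finset.sum_congr rfl
  intro A _
  rw [Finset.empty_union, Finset.empty_union, (rank_isRank G).empty, Nat.add_zero]

/-! ### the rank can be computed -/

theorem rank_eq_rk (G : MGraph) (A : Finset (Fin G.length)) :
    rank G A = (rank_rk (subEdges G A)).val := by
  have h1 : EndsIn (verts G) (subEdges G A) := by
    intro e he
    obtain ⟨i, _, rfl⟩ := mem_subEdges_iff.1 he
    exact rank_endsIn G _ (List.get_mem G i)
  have h2 := rank_rk_eq h1
  unfold rank
  omega

/-- four parallel edges -/
def four : MGraph := [([], [true]), ([], [true]), ([], [true]), ([], [true])]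

/-- the triangle -/
def tri : MGraph := [([], [true]), ([true], [false]), ([], [false])]

theorem rank_four : ∀ A : Finset (Fin 4), rank four A = min A.card 1 := by
  intro A
  rw [rank_eq_rk]
  revert A
  decide

theorem rank_tri : ∀ A : Finset (Fin 3), rank tri A = min A.card 2 := by
  intro A
  rw [rank_eq_rk]
  revert A
  decide

theorem tutte_four (x y : ℝ) : tutte four x y = x + y + y ^ 2 + y ^ 3 := by
  have h1 : tutte four x y = ∑ A ∈ (Finset.univ : Finset (Fin 4)).powerset,
      (fun k : ℕ => (x - 1) ^ (1 - min k 1) * (y - 1) ^ (k - min k 1)) A.card := by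
    unfold tutte
    rw [Finset.powerset_univ]
    refine Finset.sum_congr rfl fun A _ => ?_
    rw [rank_four, rank_four]
    rfl
  rw [h1]
  refine (Finset.sum_powerset_apply_card (fun k : ℕ => (x - 1) ^ (1 - min k 1) *
    (y - 1) ^ (k - min k 1))).trans ?_
  simp only [Finset.card_univ, Fintype.card_fin, Finset.sum_range_succ, Finset.sum_range_zero]
  simp [Nat.choose]
  ring

theorem tutte_tri (x y : ℝ) : tutte tri x y = x + x ^ 2 + y := by
  have h1 : tutte tri x y = ∑ A ∈ (Finset.univ : Finset (Fin 3)).powerset,
      (fun k : ℕ => (x - 1) ^ (2 - min k 2) * (y - 1) ^ (k - min k 2)) A.card := by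
    unfold tutte
    rw [Finset.powerset_univ]
    refine Finset.sum_congr rfl fun A _ => ?_
    rw [rank_tri, rank_tri]
    rfl
  rw [h1]
  refine (Finset.sum_powerset_apply_card (fun k : ℕ => (x - 1) ^ (2 - min k 2) *
    (y - 1) ^ (k - min k 2))).trans ?_
  simp only [Finset.card_univ, Fintype.card_fin, Finset.sum_range_succ, Finset.sum_range_zero]
  simp [Nat.choose]
  ring

end Pool.Agent.TSG
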