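import Pool.Agent.TSG.Defs
import Pool.Agent.TSG.Graph

/-!
# The sign of the Tutte polynomial: matroids on a finite type, graphs, sharpness
-/

set_option autoImplicit false

namespace Pool.Agent.TSG

open Finset Pool.Agent.QPR Pool.Agent.TutteHard Pool.Agent.TutteEq

section Matroid

variable {α : Type} [Fintype α] [DecidableEq α] {r : Finset α → ℕ}

theorem tutteM_eq (h : IsRank r) (x y : ℝ) : tutteM r x y = TT r x y ∅ Finset.univ := by
  unfold tutteM TT
  rw [Finset.powerset_univ]
  apply Finset.sum_congr rfl
  intro A _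
  rw [Finset.empty_union, Finset.empty_union, h.empty, Nat.add_zero]

theorem erase_univ (e : α) : Finset.univ.erase e = ({e} : Finset α)ᶜ := by
  ext z
  simp

theorem lo_univ (h : IsRank r) : lo r ∅ Finset.univ = loops r := by
  unfold lo loops
  apply Finset.filter_congr
  intro e _
  rw [h.empty, insert_empty_eq]

theorem co_univ : co r ∅ Finset.univ = coloops r := by
  unfold co coloops
  apply Finset.filter_congr
  intro e _
  rw [erase_univ, Finset.empty_union, Finset.empty_union]

theorem dg_univ (h : IsRank r) : dg r ∅ Finset.univ = digons r := by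
  unfold dg digons
  apply Finset.filter_congr
  intro S _
  unfold IsDig
  rw [h.empty, Finset.empty_union, Finset.empty_union, Finset.empty_union,
    ← Finset.compl_eq_univ_sdiff]
  refine and_congr ?_ ?_
  · refine forall₂_congr fun e _ => ?_
    have h1 := h.le_succ ∅ e
    have h2 := h.le_succ (Finset.univ.erase e) e
    rw [Finset.insert_erase (Finset.mem_univ e)] at h2
    have h3 : r (Finset.univ.erase e) ≤ r Finset.univ := h.mono_subset (Finset.subset_univ _)
    unfold loops coloops
    rw [Finset.mem_filter, Finset.mem_filter, Finset.empty_union, ← erase_univ, insert_empty_eq]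
    rw [h.empty, insert_empty_eq] at h1
    simp only [Finset.mem_univ, true_and]
    omega
  · rw [Nat.zero_add]

/-- **Matroids.** -/
theorem matroid (h : IsRank r) {x y : ℝ} (hx : |x| < 1) (hy : |y| < 1) (hxy : GoodPt x y) :
    ∃ c : ℝ, 0 < c ∧ tutteM r x y =
      c * (y ^ (loops r).card * x ^ (coloops r).card * (x + y) ^ (digons r).card) := by
  have h' : 0 < x + y ∨ Low x y ∨ Low y x := by
    rcases hxy with h0 | ⟨h1, _, h2, h3, h4, h5⟩ | ⟨h1, _, h2, h3, h4, h5⟩
    · exact Or.inl h0
    · exact Or.inr (Or.inl ⟨h1, h3, h2, h4, h5⟩)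
    · exact Or.inr (Or.inr ⟨h1, h3, h2, h4, h5⟩)
  obtain ⟨c, hc, hT⟩ := main h hx hy h' (Finset.univ : Finset α)
  rw [← tutteM_eq h, lo_univ h, co_univ, dg_univ h] at hT
  exact ⟨c, hc, hT⟩

/-- uniform matroids of rank `k` on `n` elements -/
theorem uniform {k : ℕ} (hr : ∀ A : Finset α, r A = min A.card k) (hk : 1 ≤ k)
    (hk' : k + 1 ≤ Fintype.card α) (h3 : 3 ≤ Fintype.card α) :
    loops r = ∅ ∧ coloops r = ∅ ∧ digons r = ∅ := by
  refine ⟨?_, ?_, ?_⟩
  · unfold loops
    rw [Finset.filter_eq_empty_iff]
    intro e _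
    rw [hr, Finset.card_singleton]
    omega
  · unfold coloops
    rw [Finset.filter_eq_empty_iff]
    intro e _
    rw [hr, hr, Finset.card_compl, Finset.card_singleton, Finset.card_univ]
    omega
  · unfold digons
    rw [Finset.filter_eq_empty_iff]
    intro S hS hS2
    have hc := (Finset.mem_powersetCard.1 hS).2
    obtain ⟨_, h1, h2⟩ := hS2
    rw [hr, hc] at h1
    rw [hr, hr, Finset.card_compl, hc, Finset.card_univ] at h2
    omega

end Matroid

/-! ### the cycle of length four and the triple edge -/

/-- the cycle of length four -/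
def cyc : MGraph := [([], [true]), ([true], [false]), ([false], [true, true]), ([], [true, true])]

/-- three parallel edges -/
def three : MGraph := [([], [true]), ([], [true]), ([], [true])]

theorem rank_cyc : ∀ A : Finset (Fin 4), rank cyc A = min A.card 3 := by
  intro A
  rw [rank_eq_rk]
  revert A
  decide

theorem rank_three : ∀ A : Finset (Fin 3), rank three A = min A.card 1 := by
  intro A
  rw [rank_eq_rk]
  revert A
  decide

theorem tutte_cyc (x y : ℝ) : tutte cyc x y = y + x + x ^ 2 + x ^ 3 := by
  have h1 : tutte cyc x y = ∑ A ∈ (Finset.univ : Finset (Fin 4)).powerset,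
      (fun k : ℕ => (x - 1) ^ (3 - min k 3) * (y - 1) ^ (k - min k 3)) A.card := by
    unfold tutte
    rw [Finset.powerset_univ]
    refine Finset.sum_congr rfl fun A _ => ?_
    rw [rank_cyc, rank_cyc]
    rfl
  rw [h1]
  refine (Finset.sum_powerset_apply_card (fun k : ℕ => (x - 1) ^ (3 - min k 3) *
    (y - 1) ^ (k - min k 3))).trans ?_
  simp only [Finset.card_univ, Fintype.card_fin, Finset.sum_range_succ, Finset.sum_range_zero]
  simp [Nat.choose]
  ring

theorem tutte_three (x y : ℝ) : tutte three x y = y + y ^ 2 + x := by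
  have h1 : tutte three x y = ∑ A ∈ (Finset.univ : Finset (Fin 3)).powerset,
      (fun k : ℕ => (x - 1) ^ (1 - min k 1) * (y - 1) ^ (k - min k 1)) A.card := by
    unfold tutte
    rw [Finset.powerset_univ]
    refine Finset.sum_congr rfl fun A _ => ?_
    rw [rank_three, rank_three]
    rfl
  rw [h1]
  refine (Finset.sum_powerset_apply_card (fun k : ℕ => (x - 1) ^ (1 - min k 1) *
    (y - 1) ^ (k - min k 1))).trans ?_
  simp only [Finset.card_univ, Fintype.card_fin, Finset.sum_range_succ, Finset.sum_range_zero]
  simp [Nat.choose]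
  ring

theorem plain_four : Plain four :=
  uniform (r := rank four) rank_four (by norm_num) (by decide) (by decide)

theorem plain_tri : Plain tri :=
  uniform (r := rank tri) rank_tri (by norm_num) (by decide) (by decide)

theorem plain_cyc : Plain cyc :=
  uniform (r := rank cyc) rank_cyc (by norm_num) (by decide) (by decide)

theorem plain_three : Plain three :=
  uniform (r := rank three) rank_three (by norm_num) (by decide) (by decide)

theorem tutte_eq_tutteM (G : MGraph) (x y : ℝ) : tutte G x y = tutteM (rank G) x y := rfl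

/-- positivity -/
theorem plain_pos {G : MGraph} (hG : Plain G) {x y : ℝ} (hx : |x| < 1) (hy : |y| < 1)
    (hxy : GoodPt x y) : 0 < tutte G x y := by
  obtain ⟨c, hc, hT⟩ := matroid (rank_isRank G) hx hy hxy
  obtain ⟨h1, h2, h3⟩ := hG
  rw [h1, h2, h3] at hT
  rw [tutte_eq_tutteM, hT]
  simpa using hc

/-- **The points with positive values on all plain graphs.** -/
theorem sharp {x y : ℝ} (hx : |x| < 1) (hy : |y| < 1) :
    ((∀ G : MGraph, Plain G → 0 < tutte G x y) ↔ GoodPt x y) := by
  constructor
  · intro h
    rw [abs_lt] at hx hy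
    rcases lt_or_ge 0 (x + y) with hxy | hxy
    · exact Or.inl hxy
    have h1 := h four plain_four
    have h2 := h tri plain_tri
    have h3 := h cyc plain_cyc
    have h4 := h three plain_three
    rw [tutte_four] at h1
    rw [tutte_tri] at h2
    rw [tutte_cyc] at h3
    rw [tutte_three] at h4
    rcases lt_or_ge 0 x with hx0 | hx0
    · exact Or.inr (Or.inl ⟨hy.1, by linarith, hx0, hxy, h1, h2⟩)
    rcases lt_or_ge 0 y with hy0 | hy0
    · exact Or.inr (Or.inr ⟨hx.1, by linarith, hy0, by linarith, h3, h4⟩)
    exfalso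
    nlinarith
  · intro h G hG
    exact plain_pos hG hx hy h

end Pool.Agent.TSG
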