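import Pool.Agent.TSG.Core

/-!
# The sign of the Tutte polynomial: the induction

Minors without loops, coloops and bad two-element blocks are reduced by splitting off blocks of two
elements, merging parallel pairs, merging series pairs, and deletion-contraction.
-/

set_option autoImplicit false

namespace Pool.Agent.TSG

open Finset Pool.Agent.QPR

variable {α : Type} [DecidableEq α] {r : Finset α → ℕ}

/-- the weight classes: `Sp` the original weight, `Gn` the other ones -/
structure Cls (q : ℝ) (Sp Gn : ℝ → Prop) : Prop where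
  q0 : 0 < q
  lt : ∀ y, Sp y ∨ Gn y → y < 1
  par : ∀ y z, Sp y ∨ Gn y → Sp z ∨ Gn z → Gn (y * z)
  ser : ∀ y z, Sp y ∨ Gn y → Sp z ∨ Gn z → q + (y - 1) + (z - 1) < 0 ∧
    ∃ y', Gn y' ∧ (q + (y - 1) + (z - 1)) * (y' - 1) = (y - 1) * (z - 1)
  dig : ∀ y z, Sp y ∨ Gn y → Sp z ∨ Gn z → Gn y ∨ Gn z → 0 < 1 - q - y * z

/-- a minor without loops, coloops and bad blocks of two elements -/
structure Good (r : Finset α → ℕ) (Sp Gn : ℝ → Prop) (y : α → ℝ) (C R : Finset α) : Prop where
  nl : ∀ e ∈ R, r (insert e C) = r C + 1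
  nc : ∀ e ∈ R, r (C ∪ R.erase e) = r (C ∪ R)
  wt : ∀ e ∈ R, Sp (y e) ∨ Gn (y e)
  dg : ∀ e ∈ R, ∀ f ∈ R, e ≠ f → r (insert e (insert f C)) = r C + 1 →
    r (C ∪ (R.erase e).erase f) + 1 = r (C ∪ R) → Gn (y e) ∨ Gn (y f)

theorem eq_insert2 {R : Finset α} {e f : α} (he : e ∈ R) (hf : f ∈ R) (hef : e ≠ f) :
    R = insert e (insert f ((R.erase e).erase f)) := by
  rw [Finset.insert_erase (Finset.mem_erase.2 ⟨hef.symm, hf⟩), Finset.insert_erase he]

section facts

variable {C R : Finset α} {e f g k : α}

/-- adding one element -/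
theorem le_erase (h : IsRank r) (C R : Finset α) (g : α) : r (C ∪ R) ≤ r (C ∪ R.erase g) + 1 := by
  have h1 : C ∪ R ⊆ insert g (C ∪ R.erase g) := by
    intro x hx
    rw [Finset.mem_union] at hx
    rw [Finset.mem_insert, Finset.mem_union, Finset.mem_erase]
    by_cases hxg : x = g
    · exact Or.inl hxg
    · rcases hx with hx | hx
      · exact Or.inr (Or.inl hx)
      · exact Or.inr (Or.inr ⟨hxg, hx⟩)
  exact (h.mono_subset h1).trans (h.le_succ _ _)

theorem erase_le (h : IsRank r) (C R : Finset α) (g : α) : r (C ∪ R.erase g) ≤ r (C ∪ R) :=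
  h.mono_subset (Finset.union_subset_union_right (Finset.erase_subset _ _))

/-- parallel elements -/
theorem par_closure (h : IsRank r) (h1 : r (insert e C) = r C + 1)
    (h3 : r (insert e (insert f C)) = r C + 1) {A : Finset α} (hC : C ⊆ A) (he : e ∈ A) :
    r (insert f A) = r A := by
  have h4 : r (insert f (insert e C)) = r (insert e C) := by
    rw [Finset.insert_comm, h3, h1]
  exact h.closure h4 (Finset.insert_subset he hC)

end facts

variable {Sp Gn : ℝ → Prop} {y : α → ℝ} {C R : Finset α} {e f : α}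

/-- the rest of a block of two elements -/
theorem Good.digon (h : IsRank r) (G : Good r Sp Gn y C R) (he : e ∈ R)
    (hp : r (insert e (insert f C)) = r C + 1)
    (hs : r (C ∪ (R.erase e).erase f) + 1 = r (C ∪ R)) :
    Good r Sp Gn y C ((R.erase e).erase f) := by
  have hsub : (R.erase e).erase f ⊆ R :=
    (Finset.erase_subset _ _).trans (Finset.erase_subset _ _)
  have key : ∀ S T : Finset α, T ⊆ R → C ∪ S ⊆ insert f (insert e (C ∪ T)) →
      r (C ∪ S) ≤ r (C ∪ T) + 1 := by
    intro S T _ hST
    have h1 := h.mono_subset hST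
    rw [par_closure h (G.nl e he) hp (A := insert e (C ∪ T))
      (Finset.subset_union_left.trans (Finset.subset_insert _ _)) (Finset.mem_insert_self _ _)] at h1
    exact h1.trans (h.le_succ _ _)
  refine ⟨fun g hg => G.nl g (hsub hg), ?_, fun g hg => G.wt g (hsub hg), ?_⟩
  · intro g hg
    have hgR := hsub hg
    have h1 := erase_le h C ((R.erase e).erase f) g
    have h2 := G.nc g hgR
    have h3 := key (R.erase g) (((R.erase e).erase f).erase g) ((Finset.erase_subset _ _).trans hsub)
      (by
        intro x hx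
        simp only [Finset.mem_union, Finset.mem_insert, Finset.mem_erase] at hx ⊢
        tauto)
    omega
  · intro g hg k hk hgk h1 h2
    have hgR := hsub hg
    have hkR := hsub hk
    refine G.dg g hgR k hkR hgk h1 ?_
    have h3 := key ((R.erase g).erase k) ((((R.erase e).erase f).erase g).erase k)
      ((Finset.erase_subset _ _).trans ((Finset.erase_subset _ _).trans hsub))
      (by
        intro x hx
        simp only [Finset.mem_union, Finset.mem_insert, Finset.mem_erase] at hx ⊢
        tauto)
    have h4 := le_erase h C (R.erase g) k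
    have h5 := G.nc g hgR
    omega

/-- merging parallel elements -/
theorem Good.parm (h : IsRank r) (G : Good r Sp Gn y C R) {y' : α → ℝ} (he : e ∈ R) (hf : f ∈ R)
    (hef : e ≠ f) (hp : r (insert e (insert f C)) = r C + 1)
    (hno : ∀ e ∈ R, ∀ f ∈ R, e ≠ f → r (insert e (insert f C)) = r C + 1 →
      r (C ∪ (R.erase e).erase f) + 1 ≠ r (C ∪ R))
    (hR : ∀ g ∈ (R.erase e).erase f, y' g = y g) (hy : Gn (y' e)) :
    Good r Sp Gn y' C (R.erase f) := by
  have hcl : ∀ S T : Finset α, e ∈ C ∪ T → C ∪ S ⊆ insert f (C ∪ T) → r (C ∪ S) ≤ r (C ∪ T) := by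
    intro S T heT hST
    have h1 := h.mono_subset hST
    rwa [par_closure h (G.nl e he) hp Finset.subset_union_left heT] at h1
  have hnf := G.nc f hf
  refine ⟨fun g hg => G.nl g (Finset.mem_of_mem_erase hg), ?_, ?_, ?_⟩
  · intro g hg
    have hgf : g ≠ f := (Finset.mem_erase.1 hg).1
    have hgR := Finset.mem_of_mem_erase hg
    have h1 := erase_le h C (R.erase f) g
    have h2 := G.nc g hgR
    by_cases hge : g = e
    · subst hge
      have h3 := hno g hgR f hf hef hp
      have h4 := le_erase h C (R.erase g) f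
      rw [Finset.erase_right_comm] at h3 h4
      omega
    · have h3 := hcl (R.erase g) ((R.erase f).erase g) (by
        simp only [Finset.mem_union, Finset.mem_erase]
        right
        exact ⟨fun h => hge h.symm, hef, he⟩) (by
        intro x hx
        simp only [Finset.mem_union, Finset.mem_insert, Finset.mem_erase] at hx ⊢
        tauto)
      omega
  · intro g hg
    have hgf : g ≠ f := (Finset.mem_erase.1 hg).1
    have hgR := Finset.mem_of_mem_erase hg
    by_cases hge : g = e
    · subst hge
      exact Or.inr hy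
    · rw [hR g (Finset.mem_erase.2 ⟨hgf, Finset.mem_erase.2 ⟨hge, hgR⟩⟩)]
      exact G.wt g hgR
  · intro g hg k hk hgk h1 h2
    have hgf : g ≠ f := (Finset.mem_erase.1 hg).1
    have hgR := Finset.mem_of_mem_erase hg
    have hkf : k ≠ f := (Finset.mem_erase.1 hk).1
    have hkR := Finset.mem_of_mem_erase hk
    by_cases hge : g = e
    · subst hge
      exact Or.inl hy
    by_cases hke : k = e
    · subst hke
      exact Or.inr hy
    exfalso
    apply hno g hgR k hkR hgk h1
    have h3 := hcl ((R.erase g).erase k) (((R.erase f).erase g).erase k) (by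
        simp only [Finset.mem_union, Finset.mem_erase]
        right
        exact ⟨fun h => hke h.symm, fun h => hge h.symm, hef, he⟩) (by
        intro x hx
        simp only [Finset.mem_union, Finset.mem_insert, Finset.mem_erase] at hx ⊢
        tauto)
    have h4 := le_erase h C (R.erase g) k
    have h5 := G.nc g hgR
    omega

/-- contraction of an element which is not in a parallel pair -/
theorem contr_aux (C : Finset α) {R : Finset α} {f g : α} (hf : f ∈ R) (hgf : g ≠ f) :
    insert f C ∪ (R.erase f).erase g = C ∪ R.erase g := by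
  ext x
  simp only [Finset.mem_union, Finset.mem_insert, Finset.mem_erase]
  constructor
  · rintro ((rfl | hx) | ⟨hx1, hx2, hx3⟩)
    · exact Or.inr ⟨fun h => hgf h.symm, hf⟩
    · exact Or.inl hx
    · exact Or.inr ⟨hx1, hx3⟩
  · rintro (hx | ⟨hx1, hx3⟩)
    · exact Or.inl (Or.inr hx)
    · by_cases hxf : x = f
      · exact Or.inl (Or.inl hxf)
      · exact Or.inr ⟨hx1, hxf, hx3⟩

theorem contr_aux0 (C : Finset α) {R : Finset α} {f : α} (hf : f ∈ R) :
    insert f C ∪ R.erase f = C ∪ R := by
  ext x
  simp only [Finset.mem_union, Finset.mem_insert, Finset.mem_erase]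
  constructor
  · rintro ((rfl | hx) | ⟨hx1, hx2⟩)
    · exact Or.inr hf
    · exact Or.inl hx
    · exact Or.inr hx2
  · rintro (hx | hx)
    · exact Or.inl (Or.inr hx)
    · by_cases hxf : x = f
      · exact Or.inl (Or.inl hxf)
      · exact Or.inr ⟨hxf, hx⟩

theorem contr_aux2 (C : Finset α) {R : Finset α} {f g k : α} (hf : f ∈ R) (hgf : g ≠ f)
    (hkf : k ≠ f) : insert f C ∪ ((R.erase f).erase g).erase k = C ∪ (R.erase g).erase k := by
  rw [Finset.erase_right_comm (a := f) (b := g)]
  exact contr_aux C (Finset.mem_erase.2 ⟨fun h => hgf h.symm, hf⟩) hkf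

/-- the contraction: no loops and no coloops -/
theorem Good.contr (h : IsRank r) (G : Good r Sp Gn y C R) (hf : f ∈ R)
    (hnp : ∀ e ∈ R, ∀ f ∈ R, e ≠ f → r (insert e (insert f C)) ≠ r C + 1) :
    (∀ g ∈ R.erase f, r (insert g (insert f C)) = r (insert f C) + 1) ∧
    (∀ g ∈ R.erase f, r (insert f C ∪ (R.erase f).erase g) = r (insert f C ∪ R.erase f)) := by
  constructor
  · intro g hg
    obtain ⟨hgf, hgR⟩ := Finset.mem_erase.1 hg
    have h1 := hnp g hgR f hf hgf
    have h2 := h.le_succ (insert f C) g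
    have h3 := h.mono (insert f C) g
    have h4 := G.nl f hf
    omega
  · intro g hg
    obtain ⟨hgf, hgR⟩ := Finset.mem_erase.1 hg
    rw [contr_aux C hf hgf, contr_aux0 C hf]
    exact G.nc g hgR

/-- merging elements in series -/
theorem Good.serm (h : IsRank r) (G : Good r Sp Gn y C R) {y' : α → ℝ} (he : e ∈ R) (hf : f ∈ R)
    (hef : e ≠ f) (hs : r (C ∪ (R.erase e).erase f) + 1 = r (C ∪ R))
    (hnp : ∀ e ∈ R, ∀ f ∈ R, e ≠ f → r (insert e (insert f C)) ≠ r C + 1)
    (hR : ∀ g ∈ (R.erase e).erase f, y' g = y g) (hy : Gn (y' e)) :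
    Good r Sp Gn y' (insert f C) (R.erase f) := by
  obtain ⟨h1, h2⟩ := G.contr h hf hnp
  refine ⟨h1, h2, ?_, ?_⟩
  · intro g hg
    have hgf : g ≠ f := (Finset.mem_erase.1 hg).1
    have hgR := Finset.mem_of_mem_erase hg
    by_cases hge : g = e
    · subst hge
      exact Or.inr hy
    · rw [hR g (Finset.mem_erase.2 ⟨hgf, Finset.mem_erase.2 ⟨hge, hgR⟩⟩)]
      exact G.wt g hgR
  · intro g hg k hk hgk h3 h4
    have hgf : g ≠ f := (Finset.mem_erase.1 hg).1
    have hgR := Finset.mem_of_mem_erase hg
    have hkf : k ≠ f := (Finset.mem_erase.1 hk).1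
    have hkR := Finset.mem_of_mem_erase hk
    by_cases hge : g = e
    · subst hge
      exact Or.inl hy
    by_cases hke : k = e
    · subst hke
      exact Or.inr hy
    exfalso
    -- `f` is in the closure of `g, k`, so of the complement of `e, f`
    have a1 : r (insert g (insert k C)) = r C + 2 := by
      have b1 := hnp g hgR k hkR hgk
      have b2 := h.le_succ (insert k C) g
      have b3 := h.mono (insert k C) g
      have b4 := G.nl k hkR
      omega
    have a2 : r (insert f (insert g (insert k C))) = r (insert g (insert k C)) := by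
      rw [a1, Finset.insert_comm f g, Finset.insert_comm f k, h3, G.nl f hf]
    have a3 : insert g (insert k C) ⊆ C ∪ (R.erase e).erase f := by
      intro x hx
      simp only [Finset.mem_union, Finset.mem_insert, Finset.mem_erase] at hx ⊢
      rcases hx with rfl | rfl | hx
      · exact Or.inr ⟨hgf, hge, hgR⟩
      · exact Or.inr ⟨hkf, hke, hkR⟩
      · exact Or.inl hx
    have a4 := h.closure a2 a3
    have a5 : insert f (C ∪ (R.erase e).erase f) = C ∪ R.erase e := by
      rw [← Finset.union_insert, Finset.insert_erase (Finset.mem_erase.2 ⟨hef.symm, hf⟩)]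
    rw [a5, G.nc e he] at a4
    omega

/-- deletion in the simple and cosimple case -/
theorem Good.del (h : IsRank r) (G : Good r Sp Gn y C R) (he : e ∈ R)
    (hnp : ∀ e ∈ R, ∀ f ∈ R, e ≠ f → r (insert e (insert f C)) ≠ r C + 1)
    (hns : ∀ e ∈ R, ∀ f ∈ R, e ≠ f → r (C ∪ (R.erase e).erase f) + 1 ≠ r (C ∪ R)) :
    Good r Sp Gn y C (R.erase e) := by
  refine ⟨fun g hg => G.nl g (Finset.mem_of_mem_erase hg), ?_,
    fun g hg => G.wt g (Finset.mem_of_mem_erase hg), ?_⟩
  · intro g hg
    obtain ⟨hge, hgR⟩ := Finset.mem_erase.1 hg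
    have h1 := hns e he g hgR (fun h => hge h.symm)
    have h2 := le_erase h C (R.erase e) g
    have h3 := erase_le h C (R.erase e) g
    have h4 := G.nc e he
    omega
  · intro g hg k hk hgk h1 _
    exact absurd h1 (hnp g (Finset.mem_of_mem_erase hg) k (Finset.mem_of_mem_erase hk) hgk)

/-- contraction in the simple and cosimple case -/
theorem Good.con (h : IsRank r) (G : Good r Sp Gn y C R) (he : e ∈ R)
    (hnp : ∀ e ∈ R, ∀ f ∈ R, e ≠ f → r (insert e (insert f C)) ≠ r C + 1)
    (hns : ∀ e ∈ R, ∀ f ∈ R, e ≠ f → r (C ∪ (R.erase e).erase f) + 1 ≠ r (C ∪ R)) :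
    Good r Sp Gn y (insert e C) (R.erase e) := by
  obtain ⟨h1, h2⟩ := G.contr h he hnp
  refine ⟨h1, h2, fun g hg => G.wt g (Finset.mem_of_mem_erase hg), ?_⟩
  intro g hg k hk hgk _ h4
  obtain ⟨hge, hgR⟩ := Finset.mem_erase.1 hg
  obtain ⟨hke, hkR⟩ := Finset.mem_erase.1 hk
  rw [contr_aux2 C he hge hke, contr_aux0 C he] at h4
  exact absurd h4 (hns g hgR k hkR hgk)

/-- **Positivity.** -/
theorem pos_main (h : IsRank r) {q : ℝ} (W : Cls q Sp Gn) : ∀ (n : ℕ) (R : Finset α),
    R.card = n → ∀ (C : Finset α) (y : α → ℝ), Good r Sp Gn y C R → 0 < SZ r q y C R := by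
  intro n
  induction n using Nat.strong_induction_on with
  | _ n ih =>
  intro R hn C y G
  have ih' : ∀ R' : Finset α, R'.card < R.card → ∀ (C : Finset α) (y : α → ℝ),
      Good r Sp Gn y C R' → 0 < SZ r q y C R' := fun R' hR' C y G' =>
    ih R'.card (by omega) R' rfl C y G'
  have hcard : ∀ e ∈ R, (R.erase e).card < R.card := fun e he => Finset.card_erase_lt_of_mem he
  rcases R.eq_empty_or_nonempty with rfl | hne
  · rw [SZ_empty]
    exact one_pos
  by_cases hd : ∃ e ∈ R, ∃ f ∈ R, e ≠ f ∧ r (insert e (insert f C)) = r C + 1 ∧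
      r (C ∪ (R.erase e).erase f) + 1 = r (C ∪ R)
  · -- a block of two elements
    obtain ⟨e, he, f, hf, hef, hp, hs⟩ := hd
    have hR := eq_insert2 he hf hef
    have G' := G.digon h he hp hs
    have hpos := ih' ((R.erase e).erase f)
      ((Finset.card_le_card (Finset.erase_subset _ _)).trans_lt (hcard e he)) C y G'
    have hw := W.dig (y e) (y f) (G.wt e he) (G.wt f hf) (G.dg e he f hf hef hp hs)
    have h1 : r (insert e (C ∪ (R.erase e).erase f)) = r (C ∪ (R.erase e).erase f) + 1 := by
      have a1 : insert e (C ∪ (R.erase e).erase f) = C ∪ R.erase f := by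
        rw [← Finset.union_insert, Finset.erase_right_comm,
          Finset.insert_erase (Finset.mem_erase.2 ⟨hef, he⟩)]
      rw [a1, G.nc f hf, hs]
    have h2 : r (insert f (C ∪ (R.erase e).erase f)) = r (C ∪ (R.erase e).erase f) + 1 := by
      have a1 : insert f (C ∪ (R.erase e).erase f) = C ∪ R.erase e := by
        rw [← Finset.union_insert, Finset.insert_erase (Finset.mem_erase.2 ⟨hef.symm, hf⟩)]
      rw [a1, G.nc e he, hs]
    rw [hR, SZ_dig h W.q0 y (by simp) (by simp) hef h1 h2 hp]
    exact mul_pos (div_pos hw W.q0) hpos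
  push Not at hd
  by_cases hpar : ∃ e ∈ R, ∃ f ∈ R, e ≠ f ∧ r (insert e (insert f C)) = r C + 1
  · -- a parallel pair
    obtain ⟨e, he, f, hf, hef, hp⟩ := hpar
    have hR := eq_insert2 he hf hef
    set y' : α → ℝ := Function.update y e (y e * y f) with hy'
    have hR' : ∀ g ∈ (R.erase e).erase f, y' g = y g := by
      intro g hg
      have : g ≠ e := (Finset.mem_erase.1 (Finset.mem_erase.1 hg).2).1
      rw [hy', Function.update_of_ne this]
    have hye : y' e = y e * y f := by rw [hy', Function.update_self]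
    have G' := G.parm h (y' := y') he hf hef hp
      (fun e he f hf hef hp hs => hd e he f hf hef hp hs) hR' (by
        rw [hye]
        exact W.par _ _ (G.wt e he) (G.wt f hf))
    have hpos := ih' (R.erase f) (hcard f hf) C y' G'
    have hRf : insert e ((R.erase e).erase f) = R.erase f := by
      rw [Finset.erase_right_comm, Finset.insert_erase (Finset.mem_erase.2 ⟨hef, he⟩)]
    rw [hR, SZ_par h y y' (by simp) (by simp) hef (G.nl e he) (G.nl f hf) hp hR' hye, hRf]
    exact hpos
  push Not at hpar
  by_cases hser : ∃ e ∈ R, ∃ f ∈ R, e ≠ f ∧ r (C ∪ (R.erase e).erase f) + 1 = r (C ∪ R)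
  · -- a series pair
    obtain ⟨e, he, f, hf, hef, hs⟩ := hser
    have hR := eq_insert2 he hf hef
    obtain ⟨hneg, v, hv, hveq⟩ := W.ser (y e) (y f) (G.wt e he) (G.wt f hf)
    set y' : α → ℝ := Function.update y e v with hy'
    have hR' : ∀ g ∈ (R.erase e).erase f, y' g = y g := by
      intro g hg
      have : g ≠ e := (Finset.mem_erase.1 (Finset.mem_erase.1 hg).2).1
      rw [hy', Function.update_of_ne this]
    have hye : y' e = v := by rw [hy', Function.update_self]
    have G' := G.serm h (y' := y') he hf hef hs hpar hR' (by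
      rw [hye]
      exact hv)
    have hpos := ih' (R.erase f) (hcard f hf) (insert f C) y' G'
    have hRf : insert e ((R.erase e).erase f) = R.erase f := by
      rw [Finset.erase_right_comm, Finset.insert_erase (Finset.mem_erase.2 ⟨hef, he⟩)]
    have h1 : r (insert e (C ∪ (R.erase e).erase f)) = r (C ∪ (R.erase e).erase f) + 1 := by
      rw [← Finset.union_insert, hRf, G.nc f hf, hs]
    have h2 : r (insert f (C ∪ (R.erase e).erase f)) = r (C ∪ (R.erase e).erase f) + 1 := by
      rw [← Finset.union_insert, Finset.insert_erase (Finset.mem_erase.2 ⟨hef.symm, hf⟩),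
        G.nc e he, hs]
    have h3 : r (insert e (insert f (C ∪ (R.erase e).erase f))) =
        r (C ∪ (R.erase e).erase f) + 1 := by
      rw [← Finset.union_insert, ← Finset.union_insert, ← hR, hs]
    rw [hR, SZ_ser h W.q0 y y' (by simp) (by simp) hef h1 h2 h3 hR' (by rw [hye]; exact hveq), hRf]
    apply mul_pos _ hpos
    rw [neg_pos]
    exact div_neg_of_neg_of_pos hneg W.q0
  push Not at hser
  -- deletion and contraction
  obtain ⟨e, he⟩ := hne
  have hR : insert e (R.erase e) = R := Finset.insert_erase he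
  have p1 := ih' (R.erase e) (hcard e he) C y (G.del h he hpar hser)
  have p2 := ih' (R.erase e) (hcard e he) (insert e C) y (G.con h he hpar hser)
  have hg := SZ_generic h (q := q) y (Finset.notMem_erase e R) (G.nl e he) (by
    rw [hR]
    exact (G.nc e he).symm)
  rw [hR] at hg
  rw [hg]
  have hlt := W.lt (y e) (G.wt e he)
  have h2 : 0 < (1 - y e) / q := div_pos (by linarith) W.q0
  exact add_pos p1 (mul_pos h2 p2)

end Pool.Agent.TSG
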