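import Pool.Agent.TSG.Pos

/-!
# The sign of the Tutte polynomial: the weights

`0 < a < 1`, `0 < x ≤ a`, `a - a² + a³ < x`, `a < x + x²`; `q = (1 - x) (1 + a)`, `1 - q = P`.
The classes: the weight `-a`, and the interval `[-m, a²]`.
-/

set_option autoImplicit false

namespace Pool.Agent.TSG

open Finset Pool.Agent.QPR

/-- the choice of `m` -/
theorem exists_m {x a P : ℝ} (hx : 0 < x) (hxa : x ≤ a) (ha : a < 1)
    (h1 : a - a ^ 2 + a ^ 3 < x) (h2 : a < x + x ^ 2) (hP : P = (1 + a) * x - a) :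
    ∃ m : ℝ, a ^ 3 ≤ m ∧ m ≤ a ∧ a * m < P ∧ 1 - P ≤ (1 + m) * (1 - x ^ 2) := by
  have ha0 : 0 < a := lt_of_lt_of_le hx hxa
  have hx1 : x < 1 := lt_of_le_of_lt hxa ha
  have hx2 : 0 < 1 - x ^ 2 := by nlinarith
  obtain ⟨s, hs⟩ : ∃ s, s = (x ^ 2 - P) / (1 - x ^ 2) := ⟨_, rfl⟩
  have hs' : s * (1 - x ^ 2) = x ^ 2 - P := by
    rw [hs]
    field_simp
  have hsa : s ≤ a := by
    by_contra hlt
    push Not at hlt
    have : a * (1 - x ^ 2) < s * (1 - x ^ 2) := mul_lt_mul_of_pos_right hlt hx2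
    have h3 : a * (1 - x ^ 2) < x ^ 2 - P := by linarith
    rw [hP] at h3
    nlinarith [mul_nonneg (mul_nonneg hx.le (sub_nonneg.2 hx1.le)) (by linarith : (0:ℝ) ≤ 1 + a)]
  have has : a * s < P := by
    by_contra hle
    push Not at hle
    have h3 : P * (1 - x ^ 2) ≤ a * s * (1 - x ^ 2) := mul_le_mul_of_nonneg_right hle hx2.le
    have h4 : P * (1 - x ^ 2) ≤ a * (x ^ 2 - P) := by
      calc P * (1 - x ^ 2) ≤ a * s * (1 - x ^ 2) := h3
        _ = a * (s * (1 - x ^ 2)) := by ring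
        _ = a * (x ^ 2 - P) := by rw [hs']
    have h5 : 0 < (1 + a) * ((1 - x) * (x * (1 + x) - a)) := by
      apply mul_pos (by linarith)
      apply mul_pos (by linarith)
      nlinarith
    have h6 : (1 + a) * ((1 - x) * (x * (1 + x) - a)) = P * (1 - x ^ 2) - a * (x ^ 2 - P) := by
      rw [hP]
      ring
    linarith
  have ha3 : a ^ 3 ≤ a := by nlinarith [mul_pos ha0 ha0]
  have ha4 : a * a ^ 3 < P := by
    rw [hP]
    nlinarith [mul_pos (by linarith : (0:ℝ) < 1 + a) (sub_pos.2 h1)]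
  refine ⟨max (a ^ 3) s, le_max_left _ _, max_le ha3 hsa, ?_, ?_⟩
  · rcases max_choice (a ^ 3) s with h | h <;> rw [h]
    · exact ha4
    · exact has
  · have h7 : s * (1 - x ^ 2) ≤ max (a ^ 3) s * (1 - x ^ 2) :=
      mul_le_mul_of_nonneg_right (le_max_right _ _) hx2.le
    nlinarith

/-- **The weight classes.** -/
theorem cls {x a : ℝ} (hx : 0 < x) (hxa : x ≤ a) (ha : a < 1)
    (h1 : a - a ^ 2 + a ^ 3 < x) (h2 : a < x + x ^ 2) :
    ∃ m : ℝ, Cls ((1 - x) * (1 + a)) (fun y => y = -a) (fun y => -m ≤ y ∧ y ≤ a ^ 2) := by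
  obtain ⟨P, hP⟩ : ∃ P, P = (1 + a) * x - a := ⟨_, rfl⟩
  obtain ⟨m, hm1, hm2, hm3, hm4⟩ := exists_m hx hxa ha h1 h2 hP
  have ha0 : 0 < a := lt_of_lt_of_le hx hxa
  have hx1 : x < 1 := lt_of_le_of_lt hxa ha
  have hm0 : 0 < m := lt_of_lt_of_le (by positivity) hm1
  have hq : (1 - x) * (1 + a) = 1 - P := by
    rw [hP]
    ring
  have ha2 : a ^ 2 < 1 := by nlinarith
  have ha2' : a ^ 2 < a := by nlinarith
  have hPa : P ≤ a ^ 2 := by
    rw [hP]
    nlinarith
  have ha4 : a ^ 4 < P := by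
    have : a ^ 4 = a * a ^ 3 := by ring
    rw [this]
    exact lt_of_le_of_lt (mul_le_mul_of_nonneg_left hm1 ha0.le) hm3
  have hP0 : 0 < P := lt_trans (by positivity) ha4
  have hup : ∀ y, (y = -a ∨ (-m ≤ y ∧ y ≤ a ^ 2)) → y ≤ a ^ 2 := by
    rintro y (rfl | ⟨-, h⟩)
    · nlinarith
    · exact h
  have hlt : ∀ y, (y = -a ∨ (-m ≤ y ∧ y ≤ a ^ 2)) → y < 1 := fun y hy =>
    lt_of_le_of_lt (hup y hy) ha2
  have h2a : 2 * a ^ 2 < 1 + P := by
    by_contra hle
    push Not at hle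
    nlinarith [sq_nonneg (a ^ 2 - 1)]
  -- products of general weights
  have hGG : ∀ y z, (-m ≤ y ∧ y ≤ a ^ 2) → (-m ≤ z ∧ z ≤ a ^ 2) →
      -(m * a ^ 2) ≤ y * z ∧ (y * z ≤ m * m ∨ y * z ≤ a ^ 4) := by
    rintro y z ⟨hy1, hy2⟩ ⟨hz1, hz2⟩
    have hmm : 0 ≤ m * a ^ 2 := by positivity
    rcases le_total 0 y with hy | hy <;> rcases le_total 0 z with hz | hz
    · refine ⟨by nlinarith [mul_nonneg hy hz], Or.inr ?_⟩
      have := mul_le_mul hy2 hz2 hz (by positivity)
      nlinarith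
    · have e1 : y * (-z) ≤ a ^ 2 * m := mul_le_mul hy2 (by linarith) (by linarith) (by positivity)
      refine ⟨by nlinarith, Or.inl ?_⟩
      nlinarith [mul_nonneg hy (neg_nonneg.2 hz), mul_pos hm0 hm0]
    · have e1 : (-y) * z ≤ m * a ^ 2 := mul_le_mul (by linarith) hz2 hz (by positivity)
      refine ⟨by nlinarith, Or.inl ?_⟩
      nlinarith [mul_nonneg (neg_nonneg.2 hy) hz, mul_pos hm0 hm0]
    · refine ⟨by nlinarith [mul_nonneg (neg_nonneg.2 hy) (neg_nonneg.2 hz)], Or.inl ?_⟩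
      have := mul_le_mul (by linarith : -y ≤ m) (by linarith : -z ≤ m) (by linarith) hm0.le
      linarith [neg_mul_neg y z]
  have hSG : ∀ z, (-m ≤ z ∧ z ≤ a ^ 2) → -(a ^ 3) ≤ -a * z ∧ -a * z ≤ a * m := by
    rintro z ⟨hz1, hz2⟩
    constructor
    · nlinarith [mul_le_mul_of_nonneg_left hz2 ha0.le]
    · nlinarith [mul_le_mul_of_nonneg_left (by linarith : -z ≤ m) ha0.le]
  have ham : a * m ≤ a ^ 2 := by nlinarith
  have hmm : m * m ≤ a * m := mul_le_mul_of_nonneg_right hm2 hm0.le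
  have ha42 : a ^ 4 ≤ a ^ 2 := by nlinarith [sq_nonneg a, sq_nonneg (a ^ 2)]
  have hma : m * a ^ 2 ≤ m := by nlinarith
  -- the constant `c`
  obtain ⟨c, hc⟩ : ∃ c, c = (a - x) / (1 - a) := ⟨_, rfl⟩
  have h1a : 0 < 1 - a := by linarith
  have hc' : c * (1 - a) = a - x := by
    rw [hc]
    field_simp
  have hc0 : 0 ≤ c := by
    rw [hc]
    exact div_nonneg (by linarith) h1a.le
  have hcx : c ≤ x := by
    rw [hc, div_le_iff₀ h1a]
    -- `a ≤ x (2 - a)`
    have h3 : 0 ≤ a * (1 - a) ^ 3 := by positivity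
    have h4 : (a - a ^ 2 + a ^ 3) * (2 - a) ≤ x * (2 - a) :=
      mul_le_mul_of_nonneg_right h1.le (by linarith)
    nlinarith
  have hcq : (1 - a ^ 2) * (1 + c) = 1 - P := by
    have h5 : (1 - a ^ 2) * (1 + c) = (1 + a) * ((1 - a) + c * (1 - a)) := by ring
    rw [h5, hc', hP]
    ring
  -- the two inequalities for the series connection
  have hA : ∀ u w, 1 - a ^ 2 ≤ u → 1 - a ^ 2 ≤ w →
      (1 - a ^ 2) * (u + w - (1 - P)) ≤ u * w := by
    intro u w hu hw
    have h3 : 0 ≤ (u - (1 - a ^ 2)) * (w - (1 - a ^ 2)) :=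
      mul_nonneg (by linarith) (by linarith)
    have h4 : 0 ≤ (1 - a ^ 2) * (a ^ 2 - P) := mul_nonneg (by linarith) (by linarith)
    nlinarith
  have hMM : (m + a ^ 2) * (m + a ^ 2) ≤ (1 + m) * (P + m) := by
    -- `(1 + m) (1 - c) ≥ 1 - a²`
    have h3 : 1 - a ^ 2 ≤ (1 + m) * (1 - c) := by
      by_contra hlt'
      push Not at hlt'
      have h4 : (1 + m) * (1 - c) * (1 + c) < (1 - a ^ 2) * (1 + c) :=
        mul_lt_mul_of_pos_right hlt' (by linarith)
      rw [hcq] at h4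
      have h5 : c ^ 2 ≤ x ^ 2 := pow_le_pow_left₀ hc0 hcx 2
      have h6 : (1 + m) * (1 - x ^ 2) ≤ (1 + m) * (1 - c ^ 2) :=
        mul_le_mul_of_nonneg_left (by linarith) (by linarith)
      nlinarith
    have h7 : (1 - a ^ 2) * (1 - a ^ 2) ≤ (1 + m) * (1 - c) * (1 - a ^ 2) :=
      mul_le_mul_of_nonneg_right h3 (by linarith)
    have h8 : (1 - c) * (1 - a ^ 2) = 2 * (1 - a ^ 2) - (1 - P) := by linarith
    have h9 : (1 + m) * (1 - c) * (1 - a ^ 2) = (1 + m) * (2 * (1 - a ^ 2) - (1 - P)) := by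
      rw [← h8]
      ring
    rw [h9] at h7
    nlinarith
  have hB : ∀ y z, (y = -a ∨ (-m ≤ y ∧ y ≤ a ^ 2)) → (z = -a ∨ (-m ≤ z ∧ z ≤ a ^ 2)) →
      (1 - y) * (1 - z) ≤ (1 + m) * ((1 - y) + (1 - z) - (1 - P)) := by
    have hid : ∀ y z : ℝ, (1 + m) * ((1 - y) + (1 - z) - (1 - P)) - (1 - y) * (1 - z) =
        (1 + m) * (P + m) - (m + y) * (m + z) := by
      intro y z
      ring
    have hpos : 0 ≤ (1 + m) * (P + m) := by positivity
    rintro y z (rfl | ⟨hy1, hy2⟩) (rfl | ⟨hz1, hz2⟩)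
    · -- `1 + a ≤ (1 + m) (1 + x)`
      have h3 : (1 - x) * (1 + a) ≤ (1 - x) * ((1 + m) * (1 + x)) := by
        rw [hq]
        calc 1 - P ≤ (1 + m) * (1 - x ^ 2) := hm4
          _ = (1 - x) * ((1 + m) * (1 + x)) := by ring
      have h4 : 1 + a ≤ (1 + m) * (1 + x) := le_of_mul_le_mul_left h3 (by linarith)
      have h5 : (1 + a) * (1 + a) ≤ (1 + a) * ((1 + m) * (1 + x)) :=
        mul_le_mul_of_nonneg_left h4 (by linarith)
      have h6 : (1 + m) * ((1 - -a) + (1 - -a) - (1 - P)) = (1 + a) * ((1 + m) * (1 + x)) := by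
        rw [← hq]
        ring
      rw [h6]
      linarith
    · have h3 := hid (-a) z
      have h4 : (m + -a) * (m + z) ≤ 0 :=
        mul_nonpos_of_nonpos_of_nonneg (by linarith) (by linarith)
      linarith
    · have h3 := hid y (-a)
      have h4 : (m + y) * (m + -a) ≤ 0 :=
        mul_nonpos_of_nonneg_of_nonpos (by linarith) (by linarith)
      linarith
    · have h3 := hid y z
      have h4 : (m + y) * (m + z) ≤ (m + a ^ 2) * (m + a ^ 2) :=
        mul_le_mul (by linarith) (by linarith) (by linarith) (by positivity)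
      linarith
  refine ⟨m, ⟨?_, hlt, ?_, ?_, ?_⟩⟩
  · rw [hq]
    linarith
  · rintro y z (rfl | hy) (rfl | hz)
    · constructor
      · nlinarith [sq_nonneg a]
      · nlinarith
    · have := hSG z hz
      exact ⟨by linarith, by linarith⟩
    · have := hSG y hy
      rw [mul_comm]
      exact ⟨by linarith, by linarith⟩
    · obtain ⟨h3, h4 | h4⟩ := hGG y z hy hz
      · exact ⟨by linarith, by linarith⟩
      · exact ⟨by linarith, by linarith⟩
  · intro y z hy hz
    have hy1 := hup y hy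
    have hz1 := hup z hz
    have hD : (1 - x) * (1 + a) + (y - 1) + (z - 1) < 0 := by
      rw [hq]
      linarith
    refine ⟨hD, 1 + (y - 1) * (z - 1) / ((1 - x) * (1 + a) + (y - 1) + (z - 1)), ⟨?_, ?_⟩, ?_⟩
    · -- lower bound
      have h3 := hB y z hy hz
      have h4 : -(1 + m) ≤ (y - 1) * (z - 1) / ((1 - x) * (1 + a) + (y - 1) + (z - 1)) := by
        rw [le_div_iff_of_neg hD, hq]
        nlinarith
      linarith
    · have h3 := hA (1 - y) (1 - z) (by linarith) (by linarith)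
      have h4 : (y - 1) * (z - 1) / ((1 - x) * (1 + a) + (y - 1) + (z - 1)) ≤ -(1 - a ^ 2) := by
        rw [div_le_iff_of_neg hD, hq]
        nlinarith
      linarith
    · have := hD.ne
      field_simp
      ring
  · intro y z hy hz hyz
    rw [show 1 - (1 - x) * (1 + a) - y * z = P - y * z by rw [hq]; ring]
    rcases hy with rfl | hy <;> rcases hz with rfl | hz
    · -- both special: one of them is also general, so `m = a` is excluded
      have h3 : -m ≤ -a := by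
        rcases hyz with h | h <;> exact h.1
      have h4 : m = a := le_antisymm hm2 (by linarith)
      subst h4
      linarith
    · have := hSG z hz
      linarith
    · have := hSG y hy
      rw [mul_comm]
      linarith
    · obtain ⟨h3, h4 | h4⟩ := hGG y z hy hz <;> linarith

end Pool.Agent.TSG
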